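import Mathlib
import Pool.Agent.U958.PF.Law
import Pool.Agent.U958.PF.Cnt
import Pool.Agent.U958.PL.GapA

set_option autoImplicit false

/-!
# The numbers `64 b ^ 2 + 9 = 8 d ^ 2 + 1` in sequential random models of the primes: the largest gaps

The question is whether there are infinitely many primes of the form `64 b ^ 2 + 9 = 8 d ^ 2 + 1`.  We determine how
long one has to wait for the next one in EVERY sequential random model of the primes with a finite set `Q` of sieving
primes (the integers are decided one after the other; no independence, no rate): almost surely there is always one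
in `(X, X ^ ((log log X) ^ c)]` if `c > 1 / κ`, and infinitely often there is none if `c < 1 / κ`.
-/

open MeasureTheory Filter
open scoped Topology

namespace Pool.Agent.Results.MP_f53aaa_nt.LargestGaps

/-- A sequential random model of the primes with the finite set `Q` of sieving primes.  `S n` is the event that
`n` is chosen; it is adapted to the filtration `ℱ`; no `n` divisible by a prime of `Q` is chosen; almost surely
the conditional probability of `S (n + 1)` given `ℱ n`, times `log n`, tends to `∏_{p ∈ Q} (1 - 1/p)⁻¹` along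
the `n` for which `n + 1` is not divisible by a prime of `Q`. -/
structure Model {Ω : Type} [mΩ : MeasurableSpace Ω] (μ : Measure Ω) (ℱ : Filtration ℕ mΩ)
    (S : ℕ → Set Ω) (Q : Finset ℕ) : Prop where
  adapted : ∀ n, MeasurableSet[ℱ n] (S n)
  sieved : ∀ n, (∃ p ∈ Q, p ∣ n) → S n = ∅
  density : ∀ᵐ ω ∂μ, Tendsto (fun n : ℕ =>
    (μ[(S (n + 1)).indicator (fun _ => (1 : ℝ)) | ℱ n]) ω * Real.log n)
    (atTop ⊓ 𝓟 {n : ℕ | ∀ p ∈ Q, ¬ p ∣ n + 1}) (𝓝 (∏ p ∈ Q, (1 - 1 / (p : ℝ))⁻¹))

/-- the pair `(d_m, b_m)` with `d_m + b_m √8 = (3 + √8) ^ m` -/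
def db : ℕ → ℕ × ℕ
  | 0 => (1, 0)
  | m + 1 => (3 * (db m).1 + 8 * (db m).2, (db m).1 + 3 * (db m).2)

/-- `N_m = 8 d_m ^ 2 + 1` -/
def N (m : ℕ) : ℕ := 8 * (db m).1 ^ 2 + 1

/-- `n = 64 b ^ 2 + 9 = 8 d ^ 2 + 1` for some integers `b`, `d` -/
def Adm (n : ℕ) : Prop := ∃ b d : ℤ, (n : ℤ) = 64 * b ^ 2 + 9 ∧ (n : ℤ) = 8 * d ^ 2 + 1

/-- no prime of `Q` divides `n` -/
def Free (Q : Finset ℕ) (n : ℕ) : Prop := ∀ p ∈ Q, ¬ p ∣ n

lemma db_eq (m : ℕ) : db m = Pool.Agent.R803.PV.db m := by
  induction m with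
  | zero => rfl
  | succ m ih =>
    show (3 * (db m).1 + 8 * (db m).2, (db m).1 + 3 * (db m).2) = _
    rw [ih]
    rfl

lemma N_eq (m : ℕ) : N m = Pool.Agent.R803.PV.N m := by
  unfold N
  rw [db_eq]
  rfl

/-- **The largest gaps between consecutive chosen numbers `64 b ^ 2 + 9 = 8 d ^ 2 + 1`.**

Consider a sequential random model of the primes with a finite set `Q` of sieving primes.  Let `δ` be the density of the
`m` for which the `m`-th number `N_m` of the form `64 b ^ 2 + 9 = 8 d ^ 2 + 1` is not divisible by a prime of `Q` (it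
exists, and it is positive exactly if there is such an `m`), and
`κ = δ ∏_{p ∈ Q} (1 - 1/p)⁻¹ / (2 log (3 + √8))`.  If `δ > 0` then almost surely:

(1) for every `c > 1 / κ` and all sufficiently large `X` a number of the form in `(X, X ^ ((log log X) ^ c)]` is chosen;

(2) for every `c < 1 / κ` there are infinitely many chosen numbers `p` of the form such that no number of the form
in `(p, p ^ ((log log p) ^ c)]` is chosen. -/
theorem result {Ω : Type} [mΩ : MeasurableSpace Ω] (μ : Measure Ω) [IsProbabilityMeasure μ]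
    (ℱ : Filtration ℕ mΩ) (S : ℕ → Set Ω) (Q : Finset ℕ) (hQ : ∀ p ∈ Q, p.Prime) (hM : Model μ ℱ S Q) :
    (StrictMono N ∧ ∀ n : ℕ, Adm n ↔ ∃ m, N m = n) ∧
    ∃ δ : ℝ, Tendsto (fun x : ℕ => ({m : ℕ | m < x ∧ Free Q (N m)}.ncard : ℝ) / x) atTop (𝓝 δ) ∧
      (0 < δ ↔ ∃ m, Free Q (N m)) ∧
      ∀ κ : ℝ, κ = δ * (∏ p ∈ Q, (1 - 1 / (p : ℝ))⁻¹) / (2 * Real.log (3 + √8)) → 0 < δ →
    -- (1)
    (∀ᵐ ω ∂μ, ∀ c : ℝ, 1 / κ < c → ∀ᶠ X : ℕ in atTop,
      ∃ p : ℕ, X < p ∧ (p : ℝ) ≤ (X : ℝ) ^ (Real.log (Real.log X) ^ c) ∧ ω ∈ S p ∧ Adm p) ∧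
    -- (2)
    (∀ᵐ ω ∂μ, ∀ c : ℝ, c < 1 / κ → ∃ᶠ p : ℕ in atTop, ω ∈ S p ∧ Adm p ∧
      ∀ p' : ℕ, p < p' → (p' : ℝ) ≤ (p : ℝ) ^ (Real.log (Real.log p) ^ c) → Adm p' → ω ∉ S p') := by
  classical
  have hNN : N = Pool.Agent.R803.PV.N := funext N_eq
  have hu : 0 < Real.log (3 + √8) := Real.log_pos Pool.Agent.U958.PF.one_lt_u
  have hW := Pool.Agent.U958.PF.WQ_pos Q hQ
  have hcop : ∀ n, ¬ Free Q n → S n = ∅ := by
    intro n hn
    apply hM.sieved
    unfold Free at hn
    push Not at hn
    exact hn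
  -- periodicity
  obtain ⟨T, hT, hper⟩ := Pool.Agent.U958.PF.N_per (∏ p ∈ Q, p) (Finset.prod_pos fun p hp => (hQ p hp).pos)
  have hperF : ∀ m, Free Q (N (m + T)) ↔ Free Q (N m) := by
    intro m
    have h1 := hper m
    rw [← hNN] at h1
    refine forall₂_congr fun p hp => not_congr ?_
    have h2 := (ZMod.natCast_eq_natCast_iff _ _ _).1 h1
    have h3 : N (m + T) ≡ N m [MOD p] := h2.of_dvd (Finset.dvd_prod_of_mem _ hp)
    exact h3.dvd_iff dvd_rfl
  have hperL : ∀ a L n : ℕ, Free Q (N (a + L * (n + T))) ↔ Free Q (N (a + L * n)) := by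
    intro a L n
    have h1 : ∀ k m : ℕ, Free Q (N (m + T * k)) ↔ Free Q (N m) := by
      intro k
      induction k with
      | zero => intro m; simp
      | succ k ih =>
        intro m
        rw [show m + T * (k + 1) = (m + T * k) + T by ring, hperF, ih]
    rw [show a + L * (n + T) = (a + L * n) + T * L by ring, h1]
  -- the densities
  set C : ℕ → ℕ → ℝ := fun a L => (((Finset.range T).filter (fun t => Free Q (N (a + L * t)))).card : ℝ) / T
    with hC
  have hT' : (0 : ℝ) < T := by exact_mod_cast hT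
  have hdens : ∀ a L : ℕ, Tendsto (fun x : ℕ => ({n : ℕ | n < x ∧ Free Q (N (a + L * n))}.ncard : ℝ) / x) atTop
      (𝓝 (C a L)) := by
    intro a L
    set g : ℕ → ℝ := fun n => if Free Q (N (a + L * n)) then 1 else 0 with hg
    have e1 : ∀ x, ({n : ℕ | n < x ∧ Free Q (N (a + L * n))}.ncard : ℝ) = ∑ n ∈ Finset.range x, g n := by
      intro x
      rw [hg, Finset.sum_boole, ← Set.ncard_coe_finset]
      congr 2
      ext n
      simp
    have e2 : ∑ t ∈ Finset.range T, g t = (((Finset.range T).filter (fun t => Free Q (N (a + L * t)))).card : ℝ) := by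
      rw [hg, Finset.sum_boole]
    have hgp : ∀ n, g (n + T) = g n := fun n => by simp only [hg, hperL]
    have hS : ∀ x, (∑ n ∈ Finset.range (x + T), g n) - C a L * ((x + T : ℕ) : ℝ) =
        (∑ n ∈ Finset.range x, g n) - C a L * x := by
      intro x
      induction x with
      | zero =>
        simp only [zero_add, Finset.range_zero, Finset.sum_empty, Nat.cast_zero, mul_zero, sub_zero]
        rw [e2, hC]
        simp only
        field_simp
        ring
      | succ x ih =>
        rw [show x + 1 + T = (x + T) + 1 by ring, Finset.sum_range_succ, Finset.sum_range_succ, hgp]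
        push_cast at ih ⊢
        linarith
    have hp : Function.Periodic (fun x : ℕ => (∑ n ∈ Finset.range x, g n) - C a L * x) T := hS
    have hb : ∃ B : ℝ, ∀ x : ℕ, |(∑ n ∈ Finset.range x, g n) - C a L * x| ≤ B := by
      refine ⟨∑ t ∈ Finset.range T, |(∑ n ∈ Finset.range t, g n) - C a L * t|, fun x => ?_⟩
      have h1 : (∑ n ∈ Finset.range (x % T), g n) - C a L * ((x % T : ℕ) : ℝ) =
          (∑ n ∈ Finset.range x, g n) - C a L * x := hp.map_mod_nat x
      rw [← h1]
      exact Finset.single_le_sum (f := fun t : ℕ => |(∑ n ∈ Finset.range t, g n) - C a L * t|)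
        (fun i _ => abs_nonneg _) (Finset.mem_range.2 (Nat.mod_lt x hT))
    obtain ⟨B, hB⟩ := hb
    have h2 : Tendsto (fun x : ℕ => ((∑ n ∈ Finset.range x, g n) - C a L * x) / x) atTop (𝓝 0) := by
      refine squeeze_zero_norm (a := fun x : ℕ => B / x) (fun x => ?_)
        ((tendsto_natCast_atTop_atTop (R := ℝ)).const_div_atTop B)
      rw [Real.norm_eq_abs, abs_div, Nat.abs_cast]
      exact div_le_div_of_nonneg_right (hB x) (Nat.cast_nonneg x)
    have h3 := h2.add_const (C a L)
    rw [zero_add] at h3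
    refine h3.congr' ?_
    filter_upwards [eventually_gt_atTop 0] with x hx
    have hx' : (0 : ℝ) < x := by exact_mod_cast hx
    rw [e1]
    field_simp
    ring
  have hposC : ∀ a L : ℕ, 0 < C a L ↔ ∃ n, Free Q (N (a + L * n)) := by
    intro a L
    constructor
    · intro h
      by_contra hne
      push Not at hne
      have : (Finset.range T).filter (fun t => Free Q (N (a + L * t))) = ∅ :=
        Finset.filter_eq_empty_iff.2 fun t _ => hne t
      rw [hC] at h
      simp only [this, Finset.card_empty, Nat.cast_zero, zero_div, lt_irrefl] at h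
    · rintro ⟨n, hn⟩
      have hp : Function.Periodic (fun n => Free Q (N (a + L * n))) T := fun n => propext (hperL a L n)
      have h2 : Free Q (N (a + L * (n % T))) = Free Q (N (a + L * n)) := hp.map_mod_nat n
      have h3 : 0 < ((Finset.range T).filter (fun t => Free Q (N (a + L * t)))).card :=
        Finset.card_pos.2 ⟨n % T, Finset.mem_filter.2 ⟨Finset.mem_range.2 (Nat.mod_lt _ hT), by rw [h2]; exact hn⟩⟩
      have h4 : (0 : ℝ) < (((Finset.range T).filter (fun t => Free Q (N (a + L * t)))).card : ℝ) := by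
        exact_mod_cast h3
      exact div_pos h4 hT'
  have hNpos : ∀ m, 1 ≤ N m := fun m => by unfold N; omega
  have hNmono : StrictMono N := by rw [hNN]; exact Pool.Agent.U958.PF.N_mono
  have hAdm : ∀ n : ℕ, Adm n ↔ ∃ m, N m = n := fun n => by rw [hNN]; exact Pool.Agent.U958.PF.adm_iff n
  refine ⟨⟨hNmono, hAdm⟩, C 0 1, ?_, ?_, ?_⟩
  · have h := hdens 0 1
    simpa only [zero_add, one_mul] using h
  · have h := hposC 0 1
    simpa only [zero_add, one_mul] using h
  intro κ hκ hδ
  have hWp : 0 < ∏ p ∈ Q, (1 - 1 / (p : ℝ))⁻¹ := hW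
  have hκ0 : 0 < κ := by
    rw [hκ]
    positivity
  have hκe : κ = Pool.Agent.U958.PF.WQ Q / (2 * Real.log (3 + √8)) *
      ((((Finset.range T).filter (fun t => Pool.Agent.U958.PF.Free Q (N t))).card : ℝ) / T) := by
    rw [hκ, hC]
    unfold Pool.Agent.U958.PF.WQ
    have e2 : (Finset.range T).filter (fun t => Pool.Agent.U958.PF.Free Q (N t)) =
        (Finset.range T).filter (fun t => Free Q (N (0 + 1 * t))) := by
      refine Finset.filter_congr fun t _ => ?_
      rw [zero_add, one_mul]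
      exact Iff.rfl
    rw [e2]
    field_simp
  have hlogN : Tendsto (fun n : ℕ => Real.log (N n) / n) atTop (𝓝 (2 * Real.log (3 + √8))) := by
    rw [hNN]
    exact Pool.Agent.U958.PF.N_log
  -- the two laws for the indices
  have hup : ∀ᵐ ω ∂μ, ∀ a : ℚ, 1 < κ * a → ∀ᶠ j : ℕ in atTop,
      ∃ m : ℕ, 2 ^ j ≤ m ∧ (m : ℝ) < (2 : ℝ) ^ j * (j : ℝ) ^ (a : ℝ) ∧ ω ∈ S (N m) := by
    rw [ae_all_iff]
    intro a
    by_cases ha : 1 < κ * a
    · have ha0 : (0 : ℝ) < a := by
        by_contra h
        push Not at h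
        nlinarith
      have h1 := Pool.Agent.U958.PL.gap_up (μ := μ) hM.adapted Q hQ hcop hM.density N hNmono hNpos
        (2 * Real.log (3 + √8)) (by positivity) hlogN T hT hperF κ hκ0 hκe a ha0 ha
      filter_upwards [h1] with ω hω _
      exact hω
    · exact Eventually.of_forall fun ω h => absurd h ha
  have hlow : ∀ᵐ ω ∂μ, ∀ a : ℚ, 0 < (a : ℝ) → κ * a < 1 → ∃ᶠ x : ℕ in atTop,
      ∀ m : ℕ, x ≤ m → (m : ℝ) < (x : ℝ) * (Real.log x) ^ (a : ℝ) → ω ∉ S (N m) := by
    rw [ae_all_iff]
    intro a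
    by_cases ha : 0 < (a : ℝ) ∧ κ * a < 1
    · have h1 := Pool.Agent.U958.PL.gap_low (μ := μ) hM.adapted Q hQ hcop hM.density N hNmono hNpos
        (2 * Real.log (3 + √8)) (by positivity) hlogN T hT hperF κ hκ0 hκe a ha.1 ha.2
      filter_upwards [h1] with ω hω _ _
      exact hω
    · exact Eventually.of_forall fun ω h h2 => absurd ⟨h, h2⟩ ha
  set U := Real.log (3 + √8) with hU
  have hU1 : 1 ≤ U := by
    rw [hU, Real.le_log_iff_exp_le (by positivity)]
    have h1 := Real.exp_one_lt_d9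
    have h2 : (0 : ℝ) ≤ √8 := Real.sqrt_nonneg 8
    linarith
  have hlX : Tendsto (fun X : ℕ => Real.log X) atTop atTop := Pool.Agent.U958.PF.logN
  have hllX : Tendsto (fun X : ℕ => Real.log (Real.log X)) atTop atTop := Real.tendsto_log_atTop.comp hlX
  have hNb : ∀ m : ℕ, 2 * m * U ≤ Real.log (N m) ∧ Real.log (N m) ≤ Real.log 9 + 2 * m * U := by
    intro m
    rw [hNN]
    exact Pool.Agent.U958.PF.N_log_bounds m
  constructor
  · filter_upwards [hup] with ω hω c hc
    obtain ⟨a, ha1, ha2⟩ := exists_rat_btwn hc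
    have ha0 : (0 : ℝ) < a := lt_trans (by positivity) ha1
    have haκ : 1 < κ * a := by
      rw [div_lt_iff₀ hκ0] at ha1
      linarith
    have hclog : Tendsto (fun X : ℕ => Nat.clog 2 (Pool.Agent.U958.PF.MX X)) atTop atTop := by
      rw [tendsto_atTop]
      intro J
      filter_upwards [Pool.Agent.U958.PF.MX_top.eventually_gt_atTop (2 ^ J)] with X hX
      by_contra h
      push Not at h
      have h1 := Nat.le_pow_clog (b := 2) (by norm_num) (Pool.Agent.U958.PF.MX X)
      have h2 : 2 ^ Nat.clog 2 (Pool.Agent.U958.PF.MX X) ≤ 2 ^ J := Nat.pow_le_pow_right (by norm_num) h.le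
      omega
    have hpow : ∀ᶠ X : ℕ in atTop, 4 * 3 ^ (a : ℝ) + 1 ≤ Real.log (Real.log X) ^ (c - a) :=
      ((tendsto_rpow_atTop (sub_pos.2 ha2)).comp hllX).eventually_ge_atTop _
    have hrat : ∀ᶠ X : ℕ in atTop, U < Real.log X / (Pool.Agent.U958.PF.MX X : ℝ) :=
      Pool.Agent.U958.PF.MX_ratio.eventually (lt_mem_nhds (by linarith))
    filter_upwards [hclog.eventually (hω a haκ), hpow, hrat, Pool.Agent.U958.PF.MX_top.eventually_gt_atTop 1,
      hllX.eventually_ge_atTop 1, hlX.eventually_ge_atTop (Real.log 9), hlX.eventually_gt_atTop 0,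
      eventually_gt_atTop 0] with X h1 h2 h3 h4 h5 h6 h7 h8
    obtain ⟨m, hm1, hm2, hm3⟩ := h1
    set x := Pool.Agent.U958.PF.MX X with hx
    set j := Nat.clog 2 x with hj
    have hxj : x ≤ 2 ^ j := Nat.le_pow_clog (by norm_num) x
    have hj1 : 2 ^ (j - 1) < x := Nat.pow_pred_clog_lt_self (by norm_num) h4
    have hj0 : 0 < j := Nat.clog_pos (by norm_num) h4
    have hx0 : (0 : ℝ) < x := by exact_mod_cast (by omega : 0 < x)
    have h2j : (2 : ℝ) ^ j ≤ 2 * x := by
      have h9 : (2 : ℝ) ^ (j - 1) < x := by exact_mod_cast hj1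
      have h10 : (2 : ℝ) ^ j = 2 * 2 ^ (j - 1) := by
        rw [← pow_succ']
        congr 1
        omega
      rw [h10]
      linarith
    have hxlog : (x : ℝ) * U ≤ Real.log X := by
      rw [lt_div_iff₀ hx0] at h3
      linarith
    have hjlog : (j : ℝ) ≤ 3 * Real.log (Real.log X) := by
      have h9 : (2 : ℝ) ^ (j - 1) ≤ Real.log X := by
        have h10 : (2 : ℝ) ^ (j - 1) < x := by exact_mod_cast hj1
        nlinarith
      have h10 := Real.log_le_log (by positivity) h9
      rw [Real.log_pow] at h10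
      have h11 : ((j - 1 : ℕ) : ℝ) = (j : ℝ) - 1 := by
        rw [Nat.cast_sub hj0]
        simp
      rw [h11] at h10
      have h12 := Real.log_two_gt_d9
      have h13 : (0 : ℝ) ≤ (j : ℝ) - 1 := by
        have : (1 : ℝ) ≤ j := by exact_mod_cast hj0
        linarith
      nlinarith
    set t := Real.log (Real.log X) with ht
    have ht0 : 0 < t := by linarith
    have hja : (j : ℝ) ^ (a : ℝ) ≤ 3 ^ (a : ℝ) * t ^ (a : ℝ) := by
      rw [← Real.mul_rpow (by norm_num) ht0.le]
      exact Real.rpow_le_rpow (Nat.cast_nonneg _) hjlog ha0.le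
    have hmub : 2 * (m : ℝ) * U ≤ 4 * Real.log X * (3 ^ (a : ℝ) * t ^ (a : ℝ)) := by
      have h9 : (m : ℝ) ≤ 2 * x * (3 ^ (a : ℝ) * t ^ (a : ℝ)) := by
        refine hm2.le.trans ?_
        exact mul_le_mul h2j hja (by positivity) (by positivity)
      have h10 : 0 ≤ 3 ^ (a : ℝ) * t ^ (a : ℝ) := by positivity
      calc 2 * (m : ℝ) * U ≤ 2 * (2 * x * (3 ^ (a : ℝ) * t ^ (a : ℝ))) * U := by gcongr
        _ = 4 * (x * U) * (3 ^ (a : ℝ) * t ^ (a : ℝ)) := by ring
        _ ≤ 4 * Real.log X * (3 ^ (a : ℝ) * t ^ (a : ℝ)) := by gcongr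
    refine ⟨N m, ?_, ?_, hm3, (hAdm _).2 ⟨m, rfl⟩⟩
    · have h9 : ¬ m < x := not_lt.2 (hxj.trans hm1)
      rw [hx, Pool.Agent.U958.PF.lt_MX, ← hNN] at h9
      omega
    · have h9 : Real.log (N m) ≤ Real.log X * t ^ c := by
        have h10 := (hNb m).2
        have hta : 1 ≤ t ^ (a : ℝ) := Real.one_le_rpow h5 ha0.le
        have h11 : Real.log 9 ≤ Real.log X * t ^ (a : ℝ) := by nlinarith
        have h12 : t ^ c = t ^ (c - a) * t ^ (a : ℝ) := by
          rw [← Real.rpow_add ht0]
          congr 1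
          ring
        rw [h12]
        have h13 : (4 * 3 ^ (a : ℝ) + 1) * (Real.log X * t ^ (a : ℝ)) ≤
            t ^ (c - a) * (Real.log X * t ^ (a : ℝ)) := mul_le_mul_of_nonneg_right h2 (by positivity)
        linarith
      have hNp : (0 : ℝ) < N m := by exact_mod_cast hNpos m
      have hXp : (0 : ℝ) < X := by exact_mod_cast h8
      rw [← Real.exp_log hNp, Real.rpow_def_of_pos hXp]
      exact Real.exp_le_exp.2 h9
  · filter_upwards [hup, hlow] with ω hω1 hω2 c hc
    -- infinitely many chosen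
    have hinf : ∀ M : ℕ, ∃ m, M ≤ m ∧ ω ∈ S (N m) := by
      intro M
      obtain ⟨a, ha1, _⟩ := exists_rat_btwn (show 1 / κ < 1 / κ + 1 by linarith)
      have haκ : 1 < κ * a := by
        rw [div_lt_iff₀ hκ0] at ha1
        linarith
      obtain ⟨j, ⟨m, h1, _, h3⟩, h4⟩ := ((hω1 a haκ).and (eventually_ge_atTop M)).exists
      exact ⟨m, h4.trans (Nat.lt_two_pow_self.le.trans h1), h3⟩
    set c' := max c 0 with hc'
    have hc'κ : c' < 1 / κ := max_lt hc (by positivity)
    have hc'0 : 0 ≤ c' := le_max_right _ _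
    obtain ⟨a, ha1, ha2⟩ := exists_rat_btwn hc'κ
    have ha0 : (0 : ℝ) < a := lt_of_le_of_lt hc'0 ha1
    have haκ : κ * a < 1 := by
      rw [lt_div_iff₀ hκ0] at ha2
      linarith
    rw [frequently_atTop]
    intro M
    -- a first chosen index
    obtain ⟨k0, hk0⟩ := eventually_atTop.1 (hllX.eventually_ge_atTop 1)
    obtain ⟨m1, hm1, hm1S⟩ := hinf (max M k0)
    have hpow : ∀ᶠ x : ℕ in atTop, 2 * 2 ^ c' < Real.log x ^ ((a : ℝ) - c') :=
      ((tendsto_rpow_atTop (sub_pos.2 ha1)).comp hlX).eventually_gt_atTop _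
    have hxx : ∀ᶠ x : ℕ in atTop, Real.log 9 + 2 * U ≤ (x : ℝ) :=
      (tendsto_natCast_atTop_atTop (R := ℝ)).eventually_ge_atTop _
    obtain ⟨x, hx1, hx2, hx3, hx4, hx5⟩ := ((hω2 a ha0 haκ).and_eventually
      (hpow.and (hxx.and ((eventually_gt_atTop m1).and (hlX.eventually_gt_atTop 0))))).exists
    set m0 := Nat.findGreatest (fun m => ω ∈ S (N m)) (x - 1) with hm0
    have hm1x : m1 ≤ x - 1 := by omega
    have hm0S : ω ∈ S (N m0) := Nat.findGreatest_spec (P := fun m => ω ∈ S (N m)) hm1x hm1S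
    have hm10 : m1 ≤ m0 := Nat.le_findGreatest hm1x hm1S
    have hm0x : m0 ≤ x - 1 := Nat.findGreatest_le _
    have hidN : ∀ m, m ≤ N m := fun m => hNmono.le_apply
    refine ⟨N m0, ?_, hm0S, (hAdm _).2 ⟨m0, rfl⟩, ?_⟩
    · exact (le_max_left M k0).trans (hm1.trans (hm10.trans (hidN m0)))
    · intro p' hp1 hp2 hp3 hp4
      obtain ⟨m, rfl⟩ := (hAdm p').1 hp3
      have hmm : m0 < m := hNmono.lt_iff_lt.1 hp1
      have hxm : x ≤ m := by
        by_contra h
        push Not at h
        exact Nat.findGreatest_is_greatest (P := fun m => ω ∈ S (N m)) hmm (by omega) hp4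
      have hx0 : (0 : ℝ) < x := by exact_mod_cast (by omega : 0 < x)
      have hx1' : (1 : ℝ) ≤ x := by exact_mod_cast (by omega : 1 ≤ x)
      refine hx1 m hxm ?_ hp4
      -- the size of m
      have hNp : (0 : ℝ) < N m := by exact_mod_cast hNpos m
      have hN0p : (0 : ℝ) < N m0 := by exact_mod_cast hNpos m0
      have hll : 1 ≤ Real.log (Real.log (N m0)) := by
        apply hk0
        exact (le_max_right M k0).trans (hm1.trans (hm10.trans (hidN m0)))
      have hl0 : 0 < Real.log (N m0) := by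
        have h9 : m0 < x := by omega
        by_contra h
        push Not at h
        have h10 : Real.log (Real.log (N m0)) = Real.log (-Real.log (N m0)) := (Real.log_neg_eq_log _).symm
        have h11 := Real.log_natCast_nonneg (N m0)
        have h12 : Real.log (N m0) = 0 := le_antisymm h h11
        rw [h12, Real.log_zero] at hll
        linarith
      have h9 : Real.log (N m0) ≤ Real.log 9 + 2 * x * U := by
        have h10 := (hNb m0).2
        have h11 : (m0 : ℝ) ≤ x := by exact_mod_cast (by omega : m0 ≤ x)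
        nlinarith
      have h10 : Real.log 9 + 2 * x * U ≤ (x : ℝ) ^ 2 := by
        have h11 : 0 ≤ Real.log 9 := Real.log_nonneg (by norm_num)
        nlinarith
      have h11 : Real.log (Real.log (N m0)) ≤ 2 * Real.log x := by
        have h12 := Real.log_le_log hl0 (h9.trans h10)
        rw [Real.log_pow] at h12
        exact_mod_cast h12
      have h12 : Real.log (Real.log (N m0)) ^ c ≤ (2 : ℝ) ^ c' * Real.log x ^ c' := by
        calc Real.log (Real.log (N m0)) ^ c ≤ Real.log (Real.log (N m0)) ^ c' :=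
              Real.rpow_le_rpow_of_exponent_le hll (le_max_left _ _)
          _ ≤ (2 * Real.log x) ^ c' := Real.rpow_le_rpow (by linarith) h11 hc'0
          _ = _ := Real.mul_rpow (by norm_num) hx5.le
      have h13 : Real.log (N m) ≤ Real.log (N m0) * (Real.log (Real.log (N m0)) ^ c) := by
        have h14 := Real.log_le_log hNp hp2
        rw [Real.log_rpow hN0p] at h14
        linarith
      have h14 : 2 * (m : ℝ) * U ≤ (Real.log 9 + 2 * x * U) * ((2 : ℝ) ^ c' * Real.log x ^ c') := by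
        refine (hNb m).1.trans (h13.trans ?_)
        exact mul_le_mul h9 h12 (by positivity) (hl0.le.trans h9)
      have h15 : (Real.log 9 + 2 * x * U) ≤ 4 * x * U := by nlinarith
      have h16 : (m : ℝ) ≤ x * (2 * 2 ^ c' * Real.log x ^ c') := by
        have h17 : 0 ≤ (2 : ℝ) ^ c' * Real.log x ^ c' := by positivity
        have h18 := mul_le_mul_of_nonneg_right h15 h17
        have h19 : 2 * U * (m : ℝ) ≤ 2 * U * (x * (2 * 2 ^ c' * Real.log x ^ c')) := by linarith
        exact le_of_mul_le_mul_left h19 (by positivity)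
      refine lt_of_le_of_lt h16 ?_
      apply mul_lt_mul_of_pos_left _ hx0
      have h17 : Real.log x ^ (a : ℝ) = Real.log x ^ ((a : ℝ) - c') * Real.log x ^ c' := by
        rw [← Real.rpow_add hx5]
        congr 1
        ring
      rw [h17]
      exact mul_lt_mul_of_pos_right hx2 (by positivity)

end Pool.Agent.Results.MP_f53aaa_nt.LargestGaps
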