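import Pool.Agent.U441.MS.Nb
import Pool.Agent.U441.MS.Nc

/-!
# MP_f53aaa_nt: primes `⌊x (8 d_m ^ 2 + 1)⌋ + h` for almost every real number `x`

`(d_m, b_m)` are the solutions of `d ^ 2 - 8 b ^ 2 = 1`. The problem asks whether
`8 d_m ^ 2 + 1 = 64 b_m ^ 2 + 9` is prime for infinitely many `m`; this is the case `x = 1`, `h = 0`.
Here `x` is a real number, and the theorems hold for almost every `x > 0`.
-/

set_option autoImplicit false

namespace Pool.Agent.Results.MP_f53aaa_nt.MetricPell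

open MeasureTheory Filter Topology

/-- `⌊x a_n⌋ + h` is a prime number -/
def PrimeAt (a : ℕ → ℝ) (x : ℝ) (h : ℤ) (n : ℕ) : Prop := (⌊x * a n⌋ + h).toNat.Prime

/-- the number of `n ≤ N` in `S` for which `⌊x a_n⌋ + h` is prime -/
noncomputable def number (a : ℕ → ℝ) (S : Set ℕ) (x : ℝ) (h : ℤ) (N : ℕ) : ℕ :=
  {n : ℕ | n ≤ N ∧ n ∈ S ∧ PrimeAt a x h n}.ncard

/-- the expected number: the sum of `1 / log a_n` over the `n ≤ N` in `S` (terms with `a_n = 1` are
zero) -/
noncomputable def expected (a : ℕ → ℝ) (S : Set ℕ) (N : ℕ) : ℝ :=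
  ∑ n ∈ Finset.range (N + 1), S.indicator (fun n => 1 / Real.log (a n)) n

/-- `a_0 ≥ 1`, `a_{n+1} ≥ 2 a_n` for all `n`, and `log a_n = O(n)` -/
def Doubling (a : ℕ → ℝ) : Prop :=
  1 ≤ a 0 ∧ (∀ n, 2 * a n ≤ a (n + 1)) ∧ ∃ D : ℝ, ∀ n : ℕ, 1 ≤ n → Real.log (a n) ≤ D * n

/-- the set `S` has logarithmic density `δ`: the sum of `1 / n` over the positive `n ≤ N` in `S` is
`(δ + o(1)) log N` -/
def LogDensity (S : Set ℕ) (δ : ℝ) : Prop :=
  Tendsto (fun N : ℕ => (∑ n ∈ Finset.range (N + 1), S.indicator (fun n => 1 / (n : ℝ)) n) /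
    Real.log N) atTop (𝓝 δ)

/-- the solutions `(d_m, b_m)` in natural numbers of `d ^ 2 = 8 b ^ 2 + 1`, in increasing order -/
def pell : ℕ → ℕ × ℕ
  | 0 => (1, 0)
  | m + 1 => (3 * (pell m).1 + 8 * (pell m).2, (pell m).1 + 3 * (pell m).2)

/-- `8 d_m ^ 2 + 1` -/
noncomputable def value (m : ℕ) : ℝ := 8 * ((pell m).1 : ℝ) ^ 2 + 1

/-- the conclusion: for almost every `x > 0` and all integers `h`, `⌊x a_n⌋ + h` is prime for
infinitely many `n` in `S`, and the number of these `n ≤ N` is greater than `(1 - ε) E N` for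
arbitrarily large `N`, and less than `(1 + ε) E N` for arbitrarily large `N`, for each `ε > 0` -/
def Law (a : ℕ → ℝ) (S : Set ℕ) (E : ℕ → ℝ) : Prop :=
  ∀ᵐ x : ℝ, 0 < x → ∀ h : ℤ, {n : ℕ | n ∈ S ∧ PrimeAt a x h n}.Infinite ∧ ∀ ε : ℝ, 0 < ε →
    (∃ᶠ N : ℕ in atTop, (1 - ε) * E N < number a S x h N) ∧
    (∃ᶠ N : ℕ in atTop, (number a S x h N : ℝ) < (1 + ε) * E N)

open Classical in
lemma T_eq (a : ℕ → ℝ) (S : Set ℕ) (x : ℝ) (h : ℤ) (N : ℕ) :
    Pool.Agent.U441.MS.T a h (Pool.Agent.U441.MS.FS S N) x = number a S x h N := by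
  have e : {n : ℕ | n ≤ N ∧ n ∈ S ∧ PrimeAt a x h n} =
      (((Pool.Agent.U441.MS.FS S N).filter (fun n => PrimeAt a x h n) : Finset ℕ) : Set ℕ) := by
    ext n
    simp only [Pool.Agent.U441.MS.FS, Set.mem_setOf_eq, Finset.coe_filter, Finset.mem_filter,
      Finset.mem_range, Nat.lt_succ_iff, and_assoc]
  unfold number
  rw [e, Set.ncard_coe_finset, Finset.card_eq_sum_ones, Finset.sum_filter]
  push_cast
  unfold Pool.Agent.U441.MS.T
  refine Finset.sum_congr rfl fun n _ => ?_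
  unfold Pool.Agent.U441.MS.ind Set.indicator PrimeAt
  simp only [Set.mem_setOf_eq]
  congr

lemma W_eq (a : ℕ → ℝ) (S : Set ℕ) (N : ℕ) :
    Pool.Agent.U441.MS.W a S N = expected a S N := by
  classical
  unfold Pool.Agent.U441.MS.W Pool.Agent.U441.MS.FS expected
  rw [Finset.sum_filter]
  refine Finset.sum_congr rfl fun n _ => ?_
  unfold Set.indicator
  congr

lemma number_mono (a : ℕ → ℝ) (S : Set ℕ) (x : ℝ) (h : ℤ)
    (hf : {n : ℕ | n ∈ S ∧ PrimeAt a x h n}.Finite) (N : ℕ) :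
    number a S x h N ≤ {n : ℕ | n ∈ S ∧ PrimeAt a x h n}.ncard :=
  Set.ncard_le_ncard (fun _ hn => hn.2) hf

lemma lac_of {a : ℕ → ℝ} (ha : Doubling a) : ∃ D : ℕ, Pool.Agent.U441.MS.Lac a D := by
  obtain ⟨h1, h2, D, h3⟩ := ha
  refine ⟨⌈|D|⌉₊ + 1, h1, h2, fun n hn => (h3 n hn).trans ?_, by omega⟩
  have h4 : D ≤ ((⌈|D|⌉₊ + 1 : ℕ) : ℝ) := by
    push_cast
    linarith [Nat.le_ceil |D|, le_abs_self D]
  gcongr

lemma general {a : ℕ → ℝ} (ha : Doubling a) (S : Set ℕ) {δ : ℝ} (hδ : 0 < δ)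
    (hS : ∀ᶠ N : ℕ in atTop, δ * Real.log N ≤ expected a S N) : Law a S (expected a S) := by
  obtain ⟨D, H⟩ := lac_of ha
  have hS' : ∀ᶠ N : ℕ in atTop, δ * Real.log N ≤ Pool.Agent.U441.MS.W a S N := by
    filter_upwards [hS] with N hN
    rw [W_eq]
    exact hN
  have hnn : ∀ n, 0 ≤ S.indicator (fun n => 1 / Real.log (a n)) n :=
    Set.indicator_nonneg fun n _ => one_div_nonneg.2 (Real.log_nonneg (H.pos n))
  have hE0 : ∀ N, 0 ≤ expected a S N := fun N => Finset.sum_nonneg fun n _ => hnn n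
  have hlogt : Tendsto (fun N : ℕ => Real.log N) atTop atTop :=
    Real.tendsto_log_atTop.comp tendsto_natCast_atTop_atTop
  have hE : Tendsto (expected a S) atTop atTop :=
    tendsto_atTop_mono' atTop hS (hlogt.const_mul_atTop hδ)
  have h4 : ∀ᵐ x : ℝ, ∀ h : ℤ, ∀ j : ℕ, 0 < x →
      (∃ᶠ N : ℕ in atTop, (1 - 1 / ((j : ℝ) + 1)) * expected a S N < number a S x h N) ∧
      (∃ᶠ N : ℕ in atTop, (number a S x h N : ℝ) < (1 + 1 / ((j : ℝ) + 1)) * expected a S N) := by
    refine ae_all_iff.2 fun h => ae_all_iff.2 fun j => ?_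
    have hj : (1 : ℝ) / ((j : ℝ) + 1) ≤ 1 := by
      rw [div_le_one (by positivity)]
      linarith [Nat.cast_nonneg (α := ℝ) j]
    have h5 := Pool.Agent.U441.MS.ae_two H S hδ hS' h (ε := 1 / ((j : ℝ) + 1)) (by positivity) hj
    filter_upwards [h5] with x hx hx0
    simpa only [T_eq, W_eq] using hx hx0
  filter_upwards [h4] with x hx hx0 h
  refine ⟨fun hfin => ?_, fun ε hε => ?_⟩
  · have h6 := (hx h 1 hx0).1
    have h7 : Tendsto (fun N => (1 - 1 / (((1 : ℕ) : ℝ) + 1)) * expected a S N) atTop atTop :=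
      hE.const_mul_atTop (by norm_num)
    have h8 := h7.eventually_gt_atTop (({n : ℕ | n ∈ S ∧ PrimeAt a x h n}.ncard : ℕ) : ℝ)
    obtain ⟨N, hN1, hN2⟩ := (h6.and_eventually h8).exists
    have h9 : (number a S x h N : ℝ) ≤ (({n : ℕ | n ∈ S ∧ PrimeAt a x h n}.ncard : ℕ) : ℝ) := by
      exact_mod_cast number_mono a S x h hfin N
    linarith
  · obtain ⟨j, hj⟩ := exists_nat_one_div_lt hε
    obtain ⟨h6, h7⟩ := hx h j hx0
    refine ⟨h6.mono fun N hN => lt_of_le_of_lt ?_ hN, h7.mono fun N hN => lt_of_lt_of_le hN ?_⟩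
    · exact mul_le_mul_of_nonneg_right (by linarith) (hE0 N)
    · exact mul_le_mul_of_nonneg_right (by linarith) (hE0 N)

/-- passing to an asymptotically equal expected number -/
lemma law_congr {a : ℕ → ℝ} {S : Set ℕ} {E E' : ℕ → ℝ} (h : Law a S E)
    (hE' : ∀ᶠ N in atTop, 0 < E' N) (hlim : Tendsto (fun N => E N / E' N) atTop (𝓝 1)) :
    Law a S E' := by
  filter_upwards [h] with x hx hx0 z
  obtain ⟨h1, h2⟩ := hx hx0 z
  refine ⟨h1, fun ε hε => ?_⟩
  set e := min ε 1 with he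
  have he0 : 0 < e := lt_min hε one_pos
  have he1 : e ≤ 1 := min_le_right _ _
  have heε : e ≤ ε := min_le_left _ _
  obtain ⟨h3, h4⟩ := h2 (e / 4) (by positivity)
  have key : ∀ᶠ N : ℕ in atTop, (1 - ε) * E' N ≤ (1 - e / 4) * E N ∧
      (1 + e / 4) * E N ≤ (1 + ε) * E' N := by
    filter_upwards [hE', hlim.eventually_const_lt (by linarith : 1 - e / 2 < 1),
      hlim.eventually_lt_const (by linarith : 1 < 1 + e / 2)] with N hN hN1 hN2
    rw [lt_div_iff₀ hN] at hN1
    rw [div_lt_iff₀ hN] at hN2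
    constructor
    · have h5 : (1 - ε) * E' N ≤ (1 - e) * E' N := mul_le_mul_of_nonneg_right (by linarith) hN.le
      have h6 : (1 - e / 4) * ((1 - e / 2) * E' N) ≤ (1 - e / 4) * E N :=
        mul_le_mul_of_nonneg_left hN1.le (by linarith)
      have h7 : (1 - e) * E' N ≤ (1 - e / 4) * ((1 - e / 2) * E' N) := by
        have : (1 - e / 4) * ((1 - e / 2) * E' N) - (1 - e) * E' N =
            (e / 4 + e ^ 2 / 8) * E' N := by ring
        have : 0 ≤ (e / 4 + e ^ 2 / 8) * E' N := by positivity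
        linarith
      linarith
    · have h5 : (1 + e) * E' N ≤ (1 + ε) * E' N := mul_le_mul_of_nonneg_right (by linarith) hN.le
      have h6 : (1 + e / 4) * E N ≤ (1 + e / 4) * ((1 + e / 2) * E' N) :=
        mul_le_mul_of_nonneg_left hN2.le (by linarith)
      have h7 : (1 + e / 4) * ((1 + e / 2) * E' N) ≤ (1 + e) * E' N := by
        have : (1 + e) * E' N - (1 + e / 4) * ((1 + e / 2) * E' N) =
            (e / 4 - e ^ 2 / 8) * E' N := by ring
        have h8 : 0 ≤ (e / 4 - e ^ 2 / 8) := by nlinarith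
        have : 0 ≤ (e / 4 - e ^ 2 / 8) * E' N := by positivity
        linarith
      linarith
  exact ⟨(h3.and_eventually key).mono fun N hN => lt_of_le_of_lt hN.2.1 hN.1,
    (h4.and_eventually key).mono fun N hN => lt_of_lt_of_le hN.1 hN.2.2⟩

lemma pell_same (m : ℕ) : pell m = Pool.Agent.U441.MS.pell m := by
  induction m with
  | zero => rfl
  | succ m ih =>
    show (3 * (pell m).1 + 8 * (pell m).2, (pell m).1 + 3 * (pell m).2) =
      (3 * (Pool.Agent.U441.MS.pell m).1 + 8 * (Pool.Agent.U441.MS.pell m).2,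
        (Pool.Agent.U441.MS.pell m).1 + 3 * (Pool.Agent.U441.MS.pell m).2)
    rw [ih]

lemma value_same : value = Pool.Agent.U441.MS.pv := by
  ext m
  unfold value Pool.Agent.U441.MS.pv
  rw [pell_same]
  push_cast
  rfl

lemma value_doubling : Doubling value := by
  have H := Pool.Agent.U441.MS.pv_lac
  rw [value_same]
  exact ⟨H.zero, H.dbl, ((6 : ℕ) : ℝ), H.up⟩

/-- the expected number for the Pell sequence -/
lemma expected_lim {S : Set ℕ} {δ : ℝ} (hδ : 0 < δ) (hS : LogDensity S δ) :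
    Tendsto (fun N : ℕ => expected value S N / Real.log N) atTop
      (𝓝 (δ / (2 * Real.log (3 + Real.sqrt 8)))) := by
  classical
  have hlogt : Tendsto (fun N : ℕ => Real.log N) atTop atTop :=
    Real.tendsto_log_atTop.comp tendsto_natCast_atTop_atTop
  have e1 : ∀ N : ℕ, ∑ n ∈ Finset.range (N + 1), S.indicator (fun n => 1 / (n : ℝ)) n =
      ∑ n ∈ Pool.Agent.U441.MS.FS S N, 1 / (n : ℝ) := by
    intro N
    unfold Pool.Agent.U441.MS.FS
    rw [Finset.sum_filter]
    refine Finset.sum_congr rfl fun n _ => ?_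
    unfold Set.indicator
    congr
  have hH : Tendsto (fun N : ℕ => ∑ n ∈ Pool.Agent.U441.MS.FS S N, 1 / (n : ℝ)) atTop atTop := by
    have h1 := hlogt.atTop_mul_pos hδ hS
    refine h1.congr' ?_
    filter_upwards [hlogt.eventually_gt_atTop 0] with N hN
    rw [mul_div_cancel₀ _ hN.ne', e1]
  have h1 := Pool.Agent.U441.MS.cesaro (w := fun n : ℕ => 1 / (n : ℝ)) S (fun n => by positivity)
    Pool.Agent.U441.MS.pv_log hH 1
  have h2 := h1.mul hS
  have e2 : 1 / (2 * Real.log Pool.Agent.U441.MS.al) * δ = δ / (2 * Real.log (3 + Real.sqrt 8)) := by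
    rw [one_div_mul_eq_div]
    rfl
  rw [e2] at h2
  have h0 : Tendsto (fun N : ℕ => (S.indicator (fun n => 1 / Real.log (value n)) 0) / Real.log N)
      atTop (𝓝 0) := tendsto_const_nhds.div_atTop hlogt
  have h3 := h2.add h0
  rw [add_zero] at h3
  refine h3.congr' ?_
  filter_upwards [hlogt.eventually_gt_atTop 0, hH.eventually_gt_atTop 0] with N hN hHN
  rw [e1]
  have e3 : ∑ n ∈ Pool.Agent.U441.MS.FS0 S 1 N, 1 / (n : ℝ) *
      ((n : ℝ) / Real.log (Pool.Agent.U441.MS.pv n)) =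
      ∑ n ∈ Pool.Agent.U441.MS.FS0 S 1 N, 1 / Real.log (value n) := by
    refine Finset.sum_congr rfl fun n hn => ?_
    have hn1 : 1 ≤ n := by
      rw [Pool.Agent.U441.MS.FS0, Finset.mem_filter] at hn
      exact hn.2
    have hn0 : (n : ℝ) ≠ 0 := by exact_mod_cast (by omega : n ≠ 0)
    rw [value_same]
    field_simp
  have e4 : expected value S N = S.indicator (fun n => 1 / Real.log (value n)) 0 +
      ∑ n ∈ Pool.Agent.U441.MS.FS0 S 1 N, 1 / Real.log (value n) := by
    unfold expected Pool.Agent.U441.MS.FS0 Pool.Agent.U441.MS.FS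
    rw [Finset.filter_filter, Finset.sum_filter, Finset.sum_range_succ', Finset.sum_range_succ' _ N,
      add_comm]
    simp only [Nat.le_zero_eq, one_ne_zero, and_false, if_false, add_zero]
    congr 1
    refine Finset.sum_congr rfl fun n _ => ?_
    unfold Set.indicator
    by_cases hn : n + 1 ∈ S <;> simp [hn]
  rw [e3, e4]
  field_simp
  ring

/-- (1) `8 d_m ^ 2 + 1 = 64 b_m ^ 2 + 9` for the solutions of the Pell equation.
(2) If `a` is doubling and the expected number of primes on `S` is at least `δ log N` for large `N`,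
then the law holds with the expected number.
(3) For the Pell sequence and a set `S` of logarithmic density `δ > 0` the law holds with
`δ log N / (2 log (3 + √8))`.
(4) In particular this holds for the indices `m ≡ r` modulo `q`, with `δ = 1 / q`. -/
theorem result :
    (∀ m : ℕ, (pell m).1 ^ 2 = 8 * (pell m).2 ^ 2 + 1 ∧
      8 * (pell m).1 ^ 2 + 1 = 64 * (pell m).2 ^ 2 + 9) ∧
    (∀ a : ℕ → ℝ, Doubling a → ∀ S : Set ℕ, ∀ δ : ℝ, 0 < δ →
      (∀ᶠ N : ℕ in atTop, δ * Real.log N ≤ expected a S N) → Law a S (expected a S)) ∧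
    (∀ S : Set ℕ, ∀ δ : ℝ, 0 < δ → LogDensity S δ →
      Law value S (fun N => δ * Real.log N / (2 * Real.log (3 + Real.sqrt 8)))) ∧
    (∀ q r : ℕ, 0 < q → Law value {m | m % q = r % q}
      (fun N => Real.log N / (2 * q * Real.log (3 + Real.sqrt 8)))) := by
  have hlogt : Tendsto (fun N : ℕ => Real.log N) atTop atTop :=
    Real.tendsto_log_atTop.comp tendsto_natCast_atTop_atTop
  have hal : 0 < Real.log (3 + Real.sqrt 8) := Pool.Agent.U441.MS.al_log
  have h3 : ∀ S : Set ℕ, ∀ δ : ℝ, 0 < δ → LogDensity S δ →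
      Law value S (fun N => δ * Real.log N / (2 * Real.log (3 + Real.sqrt 8))) := by
    intro S δ hδ hS
    have h1 := expected_lim hδ hS
    have hc : 0 < δ / (2 * Real.log (3 + Real.sqrt 8)) := by positivity
    have h2 : ∀ᶠ N : ℕ in atTop,
        δ / (2 * Real.log (3 + Real.sqrt 8)) / 2 * Real.log N ≤ expected value S N := by
      filter_upwards [h1.eventually_const_lt (half_lt_self hc), hlogt.eventually_gt_atTop 0] with
        N hN hN0
      rw [lt_div_iff₀ hN0] at hN
      exact hN.le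
    refine law_congr (general value_doubling S (half_pos hc) h2) ?_ ?_
    · filter_upwards [hlogt.eventually_gt_atTop 0] with N hN
      positivity
    · have h4 := h1.div_const (δ / (2 * Real.log (3 + Real.sqrt 8)))
      rw [div_self hc.ne'] at h4
      refine h4.congr fun N => ?_
      rw [div_div]
      congr 1
      ring
  refine ⟨fun m => ?_, fun a ha S δ hδ hS => general ha S hδ hS, h3, fun q r hq => ?_⟩
  · rw [pell_same]
    exact ⟨Pool.Agent.U441.MS.pell_eq m, Pool.Agent.U441.MS.pell_value m⟩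
  · have hq' : (0 : ℝ) < q := by exact_mod_cast hq
    have hd : LogDensity {m | m % q = r % q} (1 / q) := by
      refine (Pool.Agent.U441.MS.cs_lim q r hq).congr fun N => ?_
      unfold Pool.Agent.U441.MS.cs
      congr 1
      refine Finset.sum_congr rfl fun n _ => ?_
      unfold Set.indicator
      simp only [Set.mem_setOf_eq]
    have h5 := h3 _ (1 / q) (by positivity) hd
    have e : (fun N : ℕ => 1 / (q : ℝ) * Real.log N / (2 * Real.log (3 + Real.sqrt 8))) =
        fun N : ℕ => Real.log N / (2 * q * Real.log (3 + Real.sqrt 8)) := by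
      ext N
      field_simp
    rw [e] at h5
    exact h5

end Pool.Agent.Results.MP_f53aaa_nt.MetricPell
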