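import Mathlib
import Pool.Agent.U958.PF.Law
import Pool.Agent.U958.PF.Cnt
import Pool.Agent.U958.PL.App

set_option autoImplicit false

/-!
# The numbers `64 b ^ 2 + 9 = 8 d ^ 2 + 1` in sequential random models of the primes: the Poisson law

The question is whether there are infinitely many primes of the form `64 b ^ 2 + 9 = 8 d ^ 2 + 1`.  We determine how
the chosen numbers of this form are distributed in EVERY sequential random model of the primes with a finite set `Q`
of sieving primes (the integers are decided one after the other; no independence, no rate): on the scale of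
`log log p` they form, in the limit, a Poisson process of constant intensity, and each part of it is asymptotically
independent of the whole past of the model.
-/

open MeasureTheory Filter
open scoped Topology

namespace Pool.Agent.Results.MP_f53aaa_nt.PoissonLaw

/-- A sequential random model of the primes with the finite set `Q` of sieving primes.  `S n` is the event that
`n` is chosen; it is adapted to the filtration `ℱ`; no `n` divisible by a prime of `Q` is chosen; almost surely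
the conditional probability of `S (n + 1)` given `ℱ n`, times `log n`, tends to `∏_{p ∈ Q} (1 - 1/p)⁻¹` along
the `n` for which `n + 1` is not divisible by a prime of `Q`. -/
structure Model {Ω : Type} [mΩ : MeasurableSpace Ω] (μ : Measure Ω) (ℱ : Filtration ℕ mΩ)
    (S : ℕ → Set Ω) (Q : Finset ℕ) : Prop where
  adapted : ∀ n, MeasurableSet[ℱ n] (S n)
  sieved : ∀ n, (∃ p ∈ Q, p ∣ n) → S n = ∅
  density : ∀ᵐ ω ∂μ, Tendsto (fun n : ℕ =>
    (μ[(S (n + 1)).indicator (fun _ => (1 : ℝ)) | ℱ n]) ω * Real.log n)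
    (atTop ⊓ 𝓟 {n : ℕ | ∀ p ∈ Q, ¬ p ∣ n + 1}) (𝓝 (∏ p ∈ Q, (1 - 1 / (p : ℝ))⁻¹))

/-- the pair `(d_m, b_m)` with `d_m + b_m √8 = (3 + √8) ^ m` -/
def db : ℕ → ℕ × ℕ
  | 0 => (1, 0)
  | m + 1 => (3 * (db m).1 + 8 * (db m).2, (db m).1 + 3 * (db m).2)

/-- `N_m = 8 d_m ^ 2 + 1` -/
def N (m : ℕ) : ℕ := 8 * (db m).1 ^ 2 + 1

/-- `n = 64 b ^ 2 + 9 = 8 d ^ 2 + 1` for some integers `b`, `d` -/
def Adm (n : ℕ) : Prop := ∃ b d : ℤ, (n : ℤ) = 64 * b ^ 2 + 9 ∧ (n : ℤ) = 8 * d ^ 2 + 1

/-- no prime of `Q` divides `n` -/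
def Free (Q : Finset ℕ) (n : ℕ) : Prop := ∀ p ∈ Q, ¬ p ∣ n

/-- the probability of `k` for the Poisson law of mean `lam` -/
noncomputable def poisson (lam : ℝ) (k : ℕ) : ℝ := Real.exp (-lam) * lam ^ k / k.factorial

/-- the number of the chosen `p` with `u < p ≤ v` of the form `64 b ^ 2 + 9 = 8 d ^ 2 + 1` -/
noncomputable def count {Ω : Type} (S : ℕ → Set Ω) (u v : ℕ) (ω : Ω) : ℕ :=
  {p : ℕ | u < p ∧ p ≤ v ∧ ω ∈ S p ∧ Adm p}.ncard

lemma db_eq (m : ℕ) : db m = Pool.Agent.R803.PV.db m := by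
  induction m with
  | zero => rfl
  | succ m ih =>
    show (3 * (db m).1 + 8 * (db m).2, (db m).1 + 3 * (db m).2) = _
    rw [ih]
    rfl

lemma N_eq (m : ℕ) : N m = Pool.Agent.R803.PV.N m := by
  unfold N
  rw [db_eq]
  rfl

lemma count_eq {Ω : Type} (S : ℕ → Set Ω) (u v : ℕ) (ω : Ω) :
    count S u v ω = {m : ℕ | Pool.Agent.U958.PF.MX u ≤ m ∧ m < Pool.Agent.U958.PF.MX v ∧ ω ∈ S (N m)}.ncard := by
  have hNN : N = Pool.Agent.R803.PV.N := funext N_eq
  have e : {p : ℕ | u < p ∧ p ≤ v ∧ ω ∈ S p ∧ Adm p} =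
      N '' {m : ℕ | Pool.Agent.U958.PF.MX u ≤ m ∧ m < Pool.Agent.U958.PF.MX v ∧ ω ∈ S (N m)} := by
    ext p
    constructor
    · rintro ⟨h1, h2, h3, h4⟩
      obtain ⟨m, hm⟩ := (Pool.Agent.U958.PF.adm_iff p).1 h4
      subst hm
      refine ⟨m, ⟨?_, (Pool.Agent.U958.PF.lt_MX v m).2 h2, by rw [hNN]; exact h3⟩, by rw [hNN]⟩
      by_contra h5
      push Not at h5
      have := (Pool.Agent.U958.PF.lt_MX u m).1 h5
      omega
    · rintro ⟨m, ⟨h1, h2, h3⟩, rfl⟩
      have h4 : ¬ m < Pool.Agent.U958.PF.MX u := not_lt.2 h1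
      rw [Pool.Agent.U958.PF.lt_MX, ← hNN] at h4
      rw [Pool.Agent.U958.PF.lt_MX, ← hNN] at h2
      refine ⟨not_le.1 h4, h2, h3, ?_⟩
      rw [hNN]
      exact (Pool.Agent.U958.PF.adm_iff _).2 ⟨m, rfl⟩
  unfold count
  rw [e, Set.ncard_image_of_injective]
  rw [hNN]
  exact Pool.Agent.U958.PF.N_mono.injective

lemma count_meas {Ω : Type} [mΩ : MeasurableSpace Ω] {ℱ : Filtration ℕ mΩ} {S : ℕ → Set Ω}
    (hS : ∀ n, MeasurableSet[ℱ n] (S n)) (u v n : ℕ) (hn : v ≤ n) (k : ℕ) :
    MeasurableSet[ℱ n] {ω | count S u v ω = k} := by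
  classical
  have e1 : ∀ ω, count S u v ω = Pool.Agent.U958.PL.cnt S
      ((Finset.range v).filter (fun j => u < j + 1 ∧ Adm (j + 1))) ω := by
    intro ω
    unfold count Pool.Agent.U958.PL.cnt
    have e : {p : ℕ | u < p ∧ p ≤ v ∧ ω ∈ S p ∧ Adm p} = (fun j => j + 1) ''
        (((((Finset.range v).filter (fun j => u < j + 1 ∧ Adm (j + 1))).filter (fun k => ω ∈ S (k + 1))) :
          Finset ℕ) : Set ℕ) := by
      ext p
      simp only [Set.mem_ofPred_eq, Set.mem_image, Finset.mem_coe, Finset.mem_filter, Finset.mem_range]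
      constructor
      · rintro ⟨h1, h2, h3, h4⟩
        refine ⟨p - 1, ?_⟩
        have e2 : p - 1 + 1 = p := by omega
        rw [e2]
        exact ⟨⟨⟨by omega, h1, h4⟩, h3⟩, rfl⟩
      · rintro ⟨j, ⟨⟨h1, h2, h3⟩, h4⟩, rfl⟩
        exact ⟨h2, by omega, h4, h3⟩
    rw [e, Set.ncard_image_of_injective _ (add_left_injective 1), Set.ncard_coe_finset]
  simp only [e1]
  apply Pool.Agent.U958.PL.cnt_meas hS _ n
  intro j hj
  have := Finset.mem_range.1 (Finset.mem_filter.1 hj).1
  omega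

/-- **The Poisson law for the numbers `64 b ^ 2 + 9 = 8 d ^ 2 + 1` in sequential random models.**

Consider a sequential random model of the primes with a finite set `Q` of sieving primes, and let
`W = ∏_{p ∈ Q} (1 - 1/p)⁻¹`.

(1) Let `N_m` be the `m`-th number of the form `64 b ^ 2 + 9 = 8 d ^ 2 + 1`.  For a class `a + L n`, `n ≥ 0`, of indices
let `δ` be the density of the `n` for which `N_{a + L n}` is not divisible by a prime of `Q` (it exists, and it is
positive exactly if there is such an `n`).  Let `x_y ≤ z_y` tend to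
infinity with `log z_y - log x_y → l`, and let `G_y` be an event of the past of `N_{a + L x_y}`.  Then
`P(G_y and #{n : x_y ≤ n < z_y, N_{a + L n} chosen} = k) - P(G_y) Poisson(δ W l / (2 L log (3 + √8)))(k) → 0`.

Let `δ` be the density of the `m` for which `N_m` is not divisible by a prime of `Q`, and
`κ = δ W / (2 log (3 + √8))`.

(2) Let `u_y ≤ v_y` tend to infinity with `log v_y / log u_y → β`.  For all events `G_y` of the past of `u_y`
(`G_y ∈ ℱ_{u_y}`) and all `k`,
`P(G_y and exactly k numbers of the form in (u_y, v_y] are chosen) - P(G_y) Poisson(κ log β)(k) → 0`.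

(3) For finitely many windows one after the other, `log v_{i,y} / log u_{i,y} → β_i`, the numbers of the chosen numbers
of the form in them are asymptotically independent Poisson variables of means `κ log β_i`.

(4) For every real `β ≥ 1` the probability that a number of the form in `(X, X ^ β]` is chosen tends to
`1 - β ^ (-κ)` as `X → ∞`. -/
theorem result {Ω : Type} [mΩ : MeasurableSpace Ω] (μ : Measure Ω) [IsProbabilityMeasure μ]
    (ℱ : Filtration ℕ mΩ) (S : ℕ → Set Ω) (Q : Finset ℕ) (hQ : ∀ p ∈ Q, p.Prime) (hM : Model μ ℱ S Q) :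
    -- the numbers of the form are the `N_m`
    (StrictMono N ∧ ∀ n : ℕ, Adm n ↔ ∃ m, N m = n) ∧
    -- (1)
    (∀ (a L : ℕ), 0 < L → ∃ δ : ℝ,
      Tendsto (fun x : ℕ => ({n : ℕ | n < x ∧ Free Q (N (a + L * n))}.ncard : ℝ) / x) atTop (𝓝 δ) ∧
      (0 < δ ↔ ∃ n, Free Q (N (a + L * n))) ∧
      ∀ (x z : ℕ → ℕ) (l : ℝ), (∀ y, x y ≤ z y) → Tendsto x atTop atTop →
        Tendsto (fun y => Real.log (z y) - Real.log (x y)) atTop (𝓝 l) →
        ∀ G : ℕ → Set Ω, (∀ y, MeasurableSet[ℱ (N (a + L * x y) - 1)] (G y)) → ∀ k : ℕ,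
          Tendsto (fun y => μ.real (G y ∩ {ω | {n : ℕ | x y ≤ n ∧ n < z y ∧ ω ∈ S (N (a + L * n))}.ncard = k}) -
            μ.real (G y) * poisson (δ * (∏ p ∈ Q, (1 - 1 / (p : ℝ))⁻¹) / (2 * L * Real.log (3 + √8)) * l) k)
            atTop (𝓝 0)) ∧
    ∃ δ : ℝ, Tendsto (fun x : ℕ => ({m : ℕ | m < x ∧ Free Q (N m)}.ncard : ℝ) / x) atTop (𝓝 δ) ∧
      (0 < δ ↔ ∃ m, Free Q (N m)) ∧
      ∀ κ : ℝ, κ = δ * (∏ p ∈ Q, (1 - 1 / (p : ℝ))⁻¹) / (2 * Real.log (3 + √8)) →
    -- (2)
    (∀ (u v : ℕ → ℕ) (β : ℝ), (∀ y, u y ≤ v y) → Tendsto u atTop atTop →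
      Tendsto (fun y => Real.log (v y) / Real.log (u y)) atTop (𝓝 β) →
      ∀ G : ℕ → Set Ω, (∀ y, MeasurableSet[ℱ (u y)] (G y)) → ∀ k : ℕ,
        Tendsto (fun y => μ.real (G y ∩ {ω | count S (u y) (v y) ω = k}) -
          μ.real (G y) * poisson (κ * Real.log β) k) atTop (𝓝 0)) ∧
    -- (3)
    (∀ (r : ℕ) (u v : ℕ → ℕ → ℕ) (β : ℕ → ℝ), (∀ i y, u i y ≤ v i y ∧ v i y ≤ u (i + 1) y) →
      (∀ i, Tendsto (u i) atTop atTop) →
      (∀ i, Tendsto (fun y => Real.log (v i y) / Real.log (u i y)) atTop (𝓝 (β i))) → ∀ k : ℕ → ℕ,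
        Tendsto (fun y => μ.real {ω | ∀ i < r, count S (u i y) (v i y) ω = k i}) atTop
          (𝓝 (∏ i ∈ Finset.range r, poisson (κ * Real.log (β i)) (k i)))) ∧
    -- (4)
    (∀ β : ℝ, 1 ≤ β → Tendsto (fun X : ℕ =>
      μ.real {ω | ∃ p : ℕ, X < p ∧ (p : ℝ) ≤ (X : ℝ) ^ β ∧ ω ∈ S p ∧ Adm p}) atTop (𝓝 (1 - β ^ (-κ)))) := by
  classical
  have hNN : N = Pool.Agent.R803.PV.N := funext N_eq
  have hu : 0 < Real.log (3 + √8) := Real.log_pos Pool.Agent.U958.PF.one_lt_u
  have hW := Pool.Agent.U958.PF.WQ_pos Q hQ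
  have hpo : poisson = Pool.Agent.U958.PL.po := by
    funext lam k
    rfl
  have hcop : ∀ n, ¬ Free Q n → S n = ∅ := by
    intro n hn
    apply hM.sieved
    unfold Free at hn
    push Not at hn
    exact hn
  -- periodicity
  obtain ⟨T, hT, hper⟩ := Pool.Agent.U958.PF.N_per (∏ p ∈ Q, p) (Finset.prod_pos fun p hp => (hQ p hp).pos)
  have hperF : ∀ m, Free Q (N (m + T)) ↔ Free Q (N m) := by
    intro m
    have h1 := hper m
    rw [← hNN] at h1
    refine forall₂_congr fun p hp => not_congr ?_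
    have h2 := (ZMod.natCast_eq_natCast_iff _ _ _).1 h1
    have h3 : N (m + T) ≡ N m [MOD p] := h2.of_dvd (Finset.dvd_prod_of_mem _ hp)
    exact h3.dvd_iff dvd_rfl
  have hperL : ∀ a L n : ℕ, Free Q (N (a + L * (n + T))) ↔ Free Q (N (a + L * n)) := by
    intro a L n
    have h1 : ∀ k m : ℕ, Free Q (N (m + T * k)) ↔ Free Q (N m) := by
      intro k
      induction k with
      | zero => intro m; simp
      | succ k ih =>
        intro m
        rw [show m + T * (k + 1) = (m + T * k) + T by ring, hperF, ih]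
    rw [show a + L * (n + T) = (a + L * n) + T * L by ring, h1]
  -- the densities
  set C : ℕ → ℕ → ℝ := fun a L => (((Finset.range T).filter (fun t => Free Q (N (a + L * t)))).card : ℝ) / T
    with hC
  have hT' : (0 : ℝ) < T := by exact_mod_cast hT
  have hdens : ∀ a L : ℕ, Tendsto (fun x : ℕ => ({n : ℕ | n < x ∧ Free Q (N (a + L * n))}.ncard : ℝ) / x) atTop
      (𝓝 (C a L)) := by
    intro a L
    set g : ℕ → ℝ := fun n => if Free Q (N (a + L * n)) then 1 else 0 with hg
    have e1 : ∀ x, ({n : ℕ | n < x ∧ Free Q (N (a + L * n))}.ncard : ℝ) = ∑ n ∈ Finset.range x, g n := by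
      intro x
      rw [hg, Finset.sum_boole, ← Set.ncard_coe_finset]
      congr 2
      ext n
      simp
    have e2 : ∑ t ∈ Finset.range T, g t = (((Finset.range T).filter (fun t => Free Q (N (a + L * t)))).card : ℝ) := by
      rw [hg, Finset.sum_boole]
    have hgp : ∀ n, g (n + T) = g n := fun n => by simp only [hg, hperL]
    have hS : ∀ x, (∑ n ∈ Finset.range (x + T), g n) - C a L * ((x + T : ℕ) : ℝ) =
        (∑ n ∈ Finset.range x, g n) - C a L * x := by
      intro x
      induction x with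
      | zero =>
        simp only [zero_add, Finset.range_zero, Finset.sum_empty, Nat.cast_zero, mul_zero, sub_zero]
        rw [e2, hC]
        simp only
        field_simp
        ring
      | succ x ih =>
        rw [show x + 1 + T = (x + T) + 1 by ring, Finset.sum_range_succ, Finset.sum_range_succ, hgp]
        push_cast at ih ⊢
        linarith
    have hp : Function.Periodic (fun x : ℕ => (∑ n ∈ Finset.range x, g n) - C a L * x) T := hS
    have hb : ∃ B : ℝ, ∀ x : ℕ, |(∑ n ∈ Finset.range x, g n) - C a L * x| ≤ B := by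
      refine ⟨∑ t ∈ Finset.range T, |(∑ n ∈ Finset.range t, g n) - C a L * t|, fun x => ?_⟩
      have h1 : (∑ n ∈ Finset.range (x % T), g n) - C a L * ((x % T : ℕ) : ℝ) =
          (∑ n ∈ Finset.range x, g n) - C a L * x := hp.map_mod_nat x
      rw [← h1]
      exact Finset.single_le_sum (f := fun t : ℕ => |(∑ n ∈ Finset.range t, g n) - C a L * t|)
        (fun i _ => abs_nonneg _) (Finset.mem_range.2 (Nat.mod_lt x hT))
    obtain ⟨B, hB⟩ := hb
    have h2 : Tendsto (fun x : ℕ => ((∑ n ∈ Finset.range x, g n) - C a L * x) / x) atTop (𝓝 0) := by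
      refine squeeze_zero_norm (a := fun x : ℕ => B / x) (fun x => ?_)
        ((tendsto_natCast_atTop_atTop (R := ℝ)).const_div_atTop B)
      rw [Real.norm_eq_abs, abs_div, Nat.abs_cast]
      exact div_le_div_of_nonneg_right (hB x) (Nat.cast_nonneg x)
    have h3 := h2.add_const (C a L)
    rw [zero_add] at h3
    refine h3.congr' ?_
    filter_upwards [eventually_gt_atTop 0] with x hx
    have hx' : (0 : ℝ) < x := by exact_mod_cast hx
    rw [e1]
    field_simp
    ring
  have hposC : ∀ a L : ℕ, 0 < C a L ↔ ∃ n, Free Q (N (a + L * n)) := by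
    intro a L
    constructor
    · intro h
      by_contra hne
      push Not at hne
      have : (Finset.range T).filter (fun t => Free Q (N (a + L * t))) = ∅ :=
        Finset.filter_eq_empty_iff.2 fun t _ => hne t
      rw [hC] at h
      simp only [this, Finset.card_empty, Nat.cast_zero, zero_div, lt_irrefl] at h
    · rintro ⟨n, hn⟩
      have hp : Function.Periodic (fun n => Free Q (N (a + L * n))) T := fun n => propext (hperL a L n)
      have h2 : Free Q (N (a + L * (n % T))) = Free Q (N (a + L * n)) := hp.map_mod_nat n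
      have h3 : 0 < ((Finset.range T).filter (fun t => Free Q (N (a + L * t)))).card :=
        Finset.card_pos.2 ⟨n % T, Finset.mem_filter.2 ⟨Finset.mem_range.2 (Nat.mod_lt _ hT), by rw [h2]; exact hn⟩⟩
      have h4 : (0 : ℝ) < (((Finset.range T).filter (fun t => Free Q (N (a + L * t)))).card : ℝ) := by
        exact_mod_cast h3
      exact div_pos h4 hT'
  have hNpos : ∀ m, 1 ≤ N m := fun m => by unfold N; omega
  have hNmono : StrictMono N := by rw [hNN]; exact Pool.Agent.U958.PF.N_mono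
  -- the law in index windows
  have hindex : ∀ (a L : ℕ), 0 < L → ∀ (x z : ℕ → ℕ) (l : ℝ), (∀ y, x y ≤ z y) → Tendsto x atTop atTop →
        Tendsto (fun y => Real.log (z y) - Real.log (x y)) atTop (𝓝 l) →
        ∀ lo : ℕ → ℕ, Tendsto lo atTop atTop → (∀ y m, x y ≤ m → lo y < N (a + L * m)) →
        ∀ G : ℕ → Set Ω, (∀ y, MeasurableSet[ℱ (lo y)] (G y)) → ∀ k : ℕ,
          Tendsto (fun y => μ.real (G y ∩ {ω | {n : ℕ | x y ≤ n ∧ n < z y ∧ ω ∈ S (N (a + L * n))}.ncard = k}) -
            μ.real (G y) * poisson (C a L * (∏ p ∈ Q, (1 - 1 / (p : ℝ))⁻¹) / (2 * L * Real.log (3 + √8)) * l) k)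
            atTop (𝓝 0) := by
    intro a L hL x z l hxz hx hl lo hlo hlo2 G hG k
    have hL' : (0 : ℝ) < L := by exact_mod_cast hL
    have h1 := Pool.Agent.U958.PL.expo_mixing (μ := μ) hM.adapted Q hQ hcop hM.density (fun n => N (a + L * n))
      (fun m n hmn => hNmono (by nlinarith)) (fun m => hNpos _) (2 * Real.log (3 + √8) * L) (by positivity)
      (by
        rw [hNN]
        exact Pool.Agent.U958.PF.N_log_class a L hL) T hT (hperL a L) x z hxz hx l hl lo hlo hlo2 G hG k
    have e : C a L * (∏ p ∈ Q, (1 - 1 / (p : ℝ))⁻¹) / (2 * L * Real.log (3 + √8)) * l =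
        Pool.Agent.U958.PF.WQ Q / (2 * Real.log (3 + √8) * L) *
          ((((Finset.range T).filter (fun t => Pool.Agent.U958.PF.Free Q (N (a + L * t)))).card : ℝ) / T) * l := by
      rw [hC]
      unfold Pool.Agent.U958.PF.WQ
      have e2 : (Finset.range T).filter (fun t => Pool.Agent.U958.PF.Free Q (N (a + L * t))) =
          (Finset.range T).filter (fun t => Free Q (N (a + L * t))) := rfl
      rw [e2]
      field_simp
    rw [hpo, e]
    exact h1
  refine ⟨⟨hNmono, fun n => by rw [hNN]; exact Pool.Agent.U958.PF.adm_iff n⟩, fun a L hL => ⟨C a L, hdens a L, hposC a L, fun x z l hxz hx hl G hG k => ?_⟩, C 0 1, ?_, ?_, ?_⟩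
  · refine hindex a L hL x z l hxz hx hl (fun y => N (a + L * x y) - 1) ?_ ?_ G hG k
    · have h1 : Tendsto (fun y => a + L * x y) atTop atTop := by
        refine tendsto_atTop_mono (fun y => ?_) hx
        nlinarith [hL]
      exact (tendsto_sub_atTop_nat 1).comp (hNmono.tendsto_atTop.comp h1)
    · intro y m hm
      have h1 : N (a + L * x y) ≤ N (a + L * m) := hNmono.monotone (by nlinarith)
      have h2 := hNpos (a + L * x y)
      show N (a + L * x y) - 1 < _
      omega
  · have h := hdens 0 1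
    simpa only [zero_add, one_mul] using h
  · have h := hposC 0 1
    simpa only [zero_add, one_mul] using h
  intro κ hκ
  -- beta is at least one
  have hβ1 : ∀ (u v : ℕ → ℕ) (β : ℝ), (∀ y, u y ≤ v y) → Tendsto u atTop atTop →
      Tendsto (fun y => Real.log (v y) / Real.log (u y)) atTop (𝓝 β) → 1 ≤ β := by
    intro u v β huv hu1 hβ
    refine ge_of_tendsto hβ ?_
    filter_upwards [(Pool.Agent.U958.PF.logN.comp hu1).eventually_gt_atTop 0, hu1.eventually_gt_atTop 0] with y h1 h2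
    simp only [Function.comp] at h1
    rw [le_div_iff₀ h1, one_mul]
    exact Real.log_le_log (by exact_mod_cast h2) (by exact_mod_cast huv y)
  have h2 : (∀ (u v : ℕ → ℕ) (β : ℝ), (∀ y, u y ≤ v y) → Tendsto u atTop atTop →
      Tendsto (fun y => Real.log (v y) / Real.log (u y)) atTop (𝓝 β) →
      ∀ G : ℕ → Set Ω, (∀ y, MeasurableSet[ℱ (u y)] (G y)) → ∀ k : ℕ,
        Tendsto (fun y => μ.real (G y ∩ {ω | count S (u y) (v y) ω = k}) -
          μ.real (G y) * poisson (κ * Real.log β) k) atTop (𝓝 0)) := by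
    intro u v β huv hu1 hβ G hG k
    have hv1 : Tendsto v atTop atTop := tendsto_atTop_mono huv hu1
    have hb := hβ1 u v β huv hu1 hβ
    have hw := Pool.Agent.U958.PL.MX_win u v β (by linarith) hu1 hv1 hβ
    have hMmono : ∀ y, Pool.Agent.U958.PF.MX (u y) ≤ Pool.Agent.U958.PF.MX (v y) := by
      intro y
      by_contra h
      push Not at h
      have h3 := (Pool.Agent.U958.PF.lt_MX (u y) _).1 h
      have h4 := (Pool.Agent.U958.PF.lt_MX (v y) (Pool.Agent.U958.PF.MX (v y))).2 (h3.trans (huv y))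
      exact lt_irrefl _ h4
    have key := hindex 0 1 one_pos (fun y => Pool.Agent.U958.PF.MX (u y)) (fun y => Pool.Agent.U958.PF.MX (v y))
      (Real.log β) hMmono (Pool.Agent.U958.PF.MX_top.comp hu1) hw u hu1 (by
        intro y m hm
        have h3 : ¬ m < Pool.Agent.U958.PF.MX (u y) := not_lt.2 hm
        rw [Pool.Agent.U958.PF.lt_MX, ← hNN] at h3
        rw [zero_add, one_mul]
        omega) G hG k
    simp only [zero_add, one_mul, Nat.cast_one, mul_one] at key
    have e : κ * Real.log β = C 0 1 * (∏ p ∈ Q, (1 - 1 / (p : ℝ))⁻¹) / (2 * Real.log (3 + √8)) * Real.log β := by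
      rw [hκ]
    rw [e]
    refine key.congr fun y => ?_
    simp only [count_eq]
  refine ⟨h2, ?_, ?_⟩
  · intro r u v β huv hu1 hβ k
    rw [hpo]
    refine Pool.Agent.U958.PL.joint (μ := μ) (ℱ := ℱ) (fun i y ω => count S (u i y) (v i y) ω) u
      (fun i => κ * Real.log (β i)) ?_ (fun i y => (huv i y).1.trans (huv i y).2) r ?_ k
    · intro i y k
      exact count_meas hM.adapted (u i y) (v i y) (u (i + 1) y) (huv i y).2 k
    · intro i _ G hG k
      have := h2 (u i) (v i) (β i) (fun y => (huv i y).1) (hu1 i) (hβ i) G hG k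
      rwa [hpo] at this
  · intro β hβ
    have hβ0 : 0 < β := by linarith
    have hfl : Tendsto (fun X : ℕ => Real.log ((⌊(X : ℝ) ^ β⌋₊ : ℕ) : ℝ) / Real.log X) atTop (𝓝 β) := by
      have hl := Pool.Agent.U958.PF.logN
      have h3 : Tendsto (fun X : ℕ => β - Real.log 2 / Real.log X) atTop (𝓝 β) := by
        have h := (hl.const_div_atTop (Real.log 2)).const_sub β
        rwa [sub_zero] at h
      refine tendsto_of_tendsto_of_tendsto_of_le_of_le' h3 tendsto_const_nhds ?_ ?_
      · filter_upwards [eventually_gt_atTop 1] with X hX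
        have hX' : (1 : ℝ) < X := by exact_mod_cast hX
        have hlX : 0 < Real.log X := Real.log_pos hX'
        have hX1 : (1 : ℝ) ≤ (X : ℝ) ^ β := Real.one_le_rpow hX'.le hβ0.le
        have h4 : (X : ℝ) ^ β / 2 ≤ ((⌊(X : ℝ) ^ β⌋₊ : ℕ) : ℝ) := by
          have h5 : 1 ≤ ⌊(X : ℝ) ^ β⌋₊ := Nat.le_floor (by exact_mod_cast hX1)
          have h6 : (1 : ℝ) ≤ ((⌊(X : ℝ) ^ β⌋₊ : ℕ) : ℝ) := by exact_mod_cast h5
          have h7 := Nat.lt_floor_add_one ((X : ℝ) ^ β)
          linarith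
        have h5 := Real.log_le_log (by positivity) h4
        rw [Real.log_div (by positivity) (by norm_num), Real.log_rpow (by linarith)] at h5
        rw [le_div_iff₀ hlX, sub_mul, div_mul_cancel₀ _ hlX.ne']
        exact h5
      · filter_upwards [eventually_gt_atTop 1] with X hX
        have hX' : (1 : ℝ) < X := by exact_mod_cast hX
        have hlX : 0 < Real.log X := Real.log_pos hX'
        have hX1 : (1 : ℝ) ≤ (X : ℝ) ^ β := Real.one_le_rpow hX'.le hβ0.le
        have h5 : 1 ≤ ⌊(X : ℝ) ^ β⌋₊ := Nat.le_floor (by exact_mod_cast hX1)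
        have h6 : (0 : ℝ) < ((⌊(X : ℝ) ^ β⌋₊ : ℕ) : ℝ) := by exact_mod_cast h5
        have h7 := Real.log_le_log h6 (Nat.floor_le (by positivity))
        rw [Real.log_rpow (by linarith)] at h7
        rw [div_le_iff₀ hlX]
        exact h7
    have hle : ∀ X : ℕ, X ≤ max X ⌊(X : ℝ) ^ β⌋₊ := fun X => le_max_left _ _
    have hmax : ∀ᶠ X : ℕ in atTop, max X ⌊(X : ℝ) ^ β⌋₊ = ⌊(X : ℝ) ^ β⌋₊ := by
      filter_upwards [eventually_gt_atTop 1] with X hX
      have hX' : (1 : ℝ) ≤ X := by exact_mod_cast hX.le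
      apply max_eq_right
      apply Nat.le_floor
      calc (X : ℝ) = (X : ℝ) ^ (1 : ℝ) := (Real.rpow_one _).symm
        _ ≤ (X : ℝ) ^ β := Real.rpow_le_rpow_of_exponent_le hX' hβ
    have hfl2 : Tendsto (fun X : ℕ => Real.log ((max X ⌊(X : ℝ) ^ β⌋₊ : ℕ) : ℝ) / Real.log X) atTop (𝓝 β) := by
      refine hfl.congr' ?_
      filter_upwards [hmax] with X hX
      rw [hX]
    have h3 := h2 (fun X => X) (fun X => max X ⌊(X : ℝ) ^ β⌋₊) β hle tendsto_id hfl2 (fun _ => Set.univ)
      (fun _ => MeasurableSet.univ) 0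
    simp only [Set.univ_inter, probReal_univ, one_mul] at h3
    have h4 : poisson (κ * Real.log β) 0 = β ^ (-κ) := by
      unfold poisson
      rw [pow_zero, Nat.factorial_zero, Nat.cast_one, div_one, mul_one, Real.rpow_def_of_pos hβ0]
      congr 1
      ring
    rw [h4] at h3
    have h5 := h3.const_sub (1 - β ^ (-κ))
    rw [sub_zero] at h5
    refine h5.congr' ?_
    filter_upwards [hmax] with X hX
    rw [hX]
    have hm : MeasurableSet {ω | count S X ⌊(X : ℝ) ^ β⌋₊ ω = 0} :=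
      ℱ.le _ _ (count_meas hM.adapted X ⌊(X : ℝ) ^ β⌋₊ ⌊(X : ℝ) ^ β⌋₊ le_rfl 0)
    have e : {ω | ∃ p : ℕ, X < p ∧ (p : ℝ) ≤ (X : ℝ) ^ β ∧ ω ∈ S p ∧ Adm p} =
        {ω | count S X ⌊(X : ℝ) ^ β⌋₊ ω = 0}ᶜ := by
      ext ω
      simp only [Set.mem_ofPred_eq, Set.mem_compl_iff]
      unfold count
      have hfin : {p : ℕ | X < p ∧ p ≤ ⌊(X : ℝ) ^ β⌋₊ ∧ ω ∈ S p ∧ Adm p}.Finite :=
        (Set.finite_Iic ⌊(X : ℝ) ^ β⌋₊).subset fun p hp => hp.2.1
      rw [Set.ncard_eq_zero hfin, ← Ne, ← Set.nonempty_iff_ne_empty]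
      constructor
      · rintro ⟨p, h6, h7, h8, h9⟩
        exact ⟨p, h6, Nat.le_floor h7, h8, h9⟩
      · rintro ⟨p, h6, h7, h8, h9⟩
        exact ⟨p, h6, (Nat.le_floor_iff (by positivity)).1 h7, h8, h9⟩
    rw [e, probReal_compl_eq_one_sub hm]
    ring

end Pool.Agent.Results.MP_f53aaa_nt.PoissonLaw
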