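import Mathlib
import Pool.Agent.U958.PF.Law
import Pool.Agent.U958.PF.Cnt

set_option autoImplicit false

/-!
# The numbers `64 b ^ 2 + 9 = 8 d ^ 2 + 1` in sequential random models of the primes

The question is whether there are infinitely many primes of the form `64 b ^ 2 + 9 = 8 d ^ 2 + 1`.  We answer it,
with an asymptotic formula for the counting function and for all classes of the index of the solution of the Pell
equation, in EVERY sequential random model of the primes with a finite set `Q` of sieving primes: the integers are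
decided one after the other, no integer divisible by a prime of `Q` is chosen, and the conditional probability of
choosing `n + 1` (not divisible by a prime of `Q`) given the past, times `log n`, tends to
`∏_{p ∈ Q} (1 - 1/p)⁻¹`.  No independence and no rate is assumed (`Q = ∅` includes Cramér's model).
The answer is yes if at least one of the three primes `73`, `104411704393`, `160459573394847767113` is not in `Q`
(for instance if all primes of `Q` are less than `160459573394847767113`).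
-/

open MeasureTheory Filter
open scoped Topology

namespace Pool.Agent.Results.MP_f53aaa_nt.SequentialModels

/-- A sequential random model of the primes with the finite set `Q` of sieving primes.  `S n` is the event that
`n` is chosen; it is adapted to the filtration `ℱ`; no `n` divisible by a prime of `Q` is chosen; almost surely
the conditional probability of `S (n + 1)` given `ℱ n`, times `log n`, tends to `∏_{p ∈ Q} (1 - 1/p)⁻¹` along
the `n` for which `n + 1` is not divisible by a prime of `Q`. -/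
structure Model {Ω : Type} [mΩ : MeasurableSpace Ω] (μ : Measure Ω) (ℱ : Filtration ℕ mΩ)
    (S : ℕ → Set Ω) (Q : Finset ℕ) : Prop where
  adapted : ∀ n, MeasurableSet[ℱ n] (S n)
  sieved : ∀ n, (∃ p ∈ Q, p ∣ n) → S n = ∅
  density : ∀ᵐ ω ∂μ, Tendsto (fun n : ℕ =>
    (μ[(S (n + 1)).indicator (fun _ => (1 : ℝ)) | ℱ n]) ω * Real.log n)
    (atTop ⊓ 𝓟 {n : ℕ | ∀ p ∈ Q, ¬ p ∣ n + 1}) (𝓝 (∏ p ∈ Q, (1 - 1 / (p : ℝ))⁻¹))

/-- the pair `(d_m, b_m)` with `d_m + b_m √8 = (3 + √8) ^ m` -/
def db : ℕ → ℕ × ℕ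
  | 0 => (1, 0)
  | m + 1 => (3 * (db m).1 + 8 * (db m).2, (db m).1 + 3 * (db m).2)

/-- `N_m = 8 d_m ^ 2 + 1` -/
def N (m : ℕ) : ℕ := 8 * (db m).1 ^ 2 + 1

/-- `n = 64 b ^ 2 + 9 = 8 d ^ 2 + 1` for some integers `b`, `d` -/
def Adm (n : ℕ) : Prop := ∃ b d : ℤ, (n : ℤ) = 64 * b ^ 2 + 9 ∧ (n : ℤ) = 8 * d ^ 2 + 1

/-- no prime of `Q` divides `n` -/
def Free (Q : Finset ℕ) (n : ℕ) : Prop := ∀ p ∈ Q, ¬ p ∣ n

lemma db_eq (m : ℕ) : db m = Pool.Agent.R803.PV.db m := by
  induction m with
  | zero => rfl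
  | succ m ih =>
    show (3 * (db m).1 + 8 * (db m).2, (db m).1 + 3 * (db m).2) = _
    rw [ih]
    rfl

lemma N_eq (m : ℕ) : N m = Pool.Agent.R803.PV.N m := by
  unfold N
  rw [db_eq]
  rfl

/-- **The numbers `64 b ^ 2 + 9 = 8 d ^ 2 + 1` in sequential random models.**

(0) The natural numbers of the form `64 b ^ 2 + 9 = 8 d ^ 2 + 1` are the numbers `N_m`, `m ≥ 0`, where
`d_m + b_m √8 = (3 + √8) ^ m`.

Consider a sequential random model of the primes with a finite set `Q` of sieving primes.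

(1) For every class `a + L n`, `n ≥ 0`, of indices let `δ` be the density of the `n` for which `N_{a + L n}` is not
divisible by a prime of `Q`; it exists, and it is positive if there is one such `n`.  Almost surely, for all
classes, the number of the `n < x` with `N_{a + L n}` chosen, divided by `log x`, tends to
`δ ∏_{p ∈ Q} (1 - 1/p)⁻¹ / (2 L log (3 + √8))`.

(2) Let `δ` be the density of the `m` for which `N_m` is not divisible by a prime of `Q`.  Almost surely the number of
the chosen `p ≤ X` of the form `64 b ^ 2 + 9 = 8 d ^ 2 + 1`, divided by `log log X`, tends to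
`δ ∏_{p ∈ Q} (1 - 1/p)⁻¹ / (2 log (3 + √8))`.

(3) If at least one of the primes `73`, `104411704393`, `160459573394847767113` is not in `Q` then `δ > 0`, and
almost surely infinitely many numbers of the form `64 b ^ 2 + 9 = 8 d ^ 2 + 1` are chosen. -/
theorem result :
    -- (0)
    (∀ n : ℕ, Adm n ↔ ∃ m, N m = n) ∧
    (∀ m : ℕ, ((db m).1 : ℝ) + ((db m).2 : ℝ) * √8 = (3 + √8) ^ m) ∧
    ∀ {Ω : Type} [mΩ : MeasurableSpace Ω] (μ : Measure Ω) [IsProbabilityMeasure μ]
      (ℱ : Filtration ℕ mΩ) (S : ℕ → Set Ω) (Q : Finset ℕ) (_ : ∀ p ∈ Q, p.Prime) (_ : Model μ ℱ S Q),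
    -- (1)
    (∃ δ : ℕ → ℕ → ℝ, (∀ a L : ℕ, 0 < L →
      Tendsto (fun x : ℕ => ({n : ℕ | n < x ∧ Free Q (N (a + L * n))}.ncard : ℝ) / x) atTop (𝓝 (δ a L)) ∧
      (0 < δ a L ↔ ∃ n, Free Q (N (a + L * n)))) ∧
      ∀ᵐ ω ∂μ, ∀ a L : ℕ, 0 < L →
        Tendsto (fun x : ℕ => ({n : ℕ | n < x ∧ ω ∈ S (N (a + L * n))}.ncard : ℝ) / Real.log x) atTop
          (𝓝 (δ a L * (∏ p ∈ Q, (1 - 1 / (p : ℝ))⁻¹) / (2 * L * Real.log (3 + √8))))) ∧
    -- (2)
    (∀ δ : ℝ, Tendsto (fun x : ℕ => ({m : ℕ | m < x ∧ Free Q (N m)}.ncard : ℝ) / x) atTop (𝓝 δ) →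
      (∀ᵐ ω ∂μ, Tendsto (fun X : ℕ => ({p : ℕ | p ≤ X ∧ ω ∈ S p ∧ Adm p}.ncard : ℝ) /
        Real.log (Real.log X)) atTop
          (𝓝 (δ * (∏ p ∈ Q, (1 - 1 / (p : ℝ))⁻¹) / (2 * Real.log (3 + √8))))) ∧
      -- (3)
      ((73 ∉ Q ∨ 104411704393 ∉ Q ∨ 160459573394847767113 ∉ Q) →
        0 < δ ∧ ∀ᵐ ω ∂μ, {p : ℕ | ω ∈ S p ∧ Adm p}.Infinite)) := by
  classical
  have hNN : N = Pool.Agent.R803.PV.N := funext N_eq
  refine ⟨fun n => ?_, fun m => ?_, ?_⟩
  · rw [hNN]
    exact Pool.Agent.U958.PF.adm_iff n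
  · rw [db_eq]
    exact Pool.Agent.R803.PV.real_eq m
  intro Ω mΩ μ hμ ℱ S Q hQ hM
  have hu : 0 < Real.log (3 + √8) := Real.log_pos Pool.Agent.U958.PF.one_lt_u
  have hW := Pool.Agent.U958.PF.WQ_pos Q hQ
  have hcop : ∀ n, ¬ Free Q n → S n = ∅ := by
    intro n hn
    apply hM.sieved
    unfold Free at hn
    push Not at hn
    exact hn
  -- periodicity
  obtain ⟨T, hT, hper⟩ := Pool.Agent.U958.PF.N_per (∏ p ∈ Q, p) (Finset.prod_pos fun p hp => (hQ p hp).pos)
  have hperF : ∀ m, Free Q (N (m + T)) ↔ Free Q (N m) := by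
    intro m
    have h1 := hper m
    rw [← hNN] at h1
    refine forall₂_congr fun p hp => not_congr ?_
    have h2 := (ZMod.natCast_eq_natCast_iff _ _ _).1 h1
    have h3 : N (m + T) ≡ N m [MOD p] := h2.of_dvd (Finset.dvd_prod_of_mem _ hp)
    exact h3.dvd_iff dvd_rfl
  have hperL : ∀ a L n : ℕ, Free Q (N (a + L * (n + T))) ↔ Free Q (N (a + L * n)) := by
    intro a L n
    have h1 : ∀ k m : ℕ, Free Q (N (m + T * k)) ↔ Free Q (N m) := by
      intro k
      induction k with
      | zero => intro m; simp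
      | succ k ih =>
        intro m
        rw [show m + T * (k + 1) = (m + T * k) + T by ring, hperF, ih]
    rw [show a + L * (n + T) = (a + L * n) + T * L by ring, h1]
  -- the densities
  set C : ℕ → ℕ → ℝ := fun a L => (((Finset.range T).filter (fun t => Free Q (N (a + L * t)))).card : ℝ) / T
    with hC
  have hT' : (0 : ℝ) < T := by exact_mod_cast hT
  have hdens : ∀ a L : ℕ, Tendsto (fun x : ℕ => ({n : ℕ | n < x ∧ Free Q (N (a + L * n))}.ncard : ℝ) / x) atTop
      (𝓝 (C a L)) := by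
    intro a L
    set g : ℕ → ℝ := fun n => if Free Q (N (a + L * n)) then 1 else 0 with hg
    have e1 : ∀ x, ({n : ℕ | n < x ∧ Free Q (N (a + L * n))}.ncard : ℝ) = ∑ n ∈ Finset.range x, g n := by
      intro x
      rw [hg, Finset.sum_boole, ← Set.ncard_coe_finset]
      congr 2
      ext n
      simp
    have e2 : ∑ t ∈ Finset.range T, g t = (((Finset.range T).filter (fun t => Free Q (N (a + L * t)))).card : ℝ) := by
      rw [hg, Finset.sum_boole]
    have hgp : ∀ n, g (n + T) = g n := fun n => by simp only [hg, hperL]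
    have hS : ∀ x, (∑ n ∈ Finset.range (x + T), g n) - C a L * ((x + T : ℕ) : ℝ) =
        (∑ n ∈ Finset.range x, g n) - C a L * x := by
      intro x
      induction x with
      | zero =>
        simp only [zero_add, Finset.range_zero, Finset.sum_empty, Nat.cast_zero, mul_zero, sub_zero]
        rw [e2, hC]
        simp only
        field_simp
        ring
      | succ x ih =>
        rw [show x + 1 + T = (x + T) + 1 by ring, Finset.sum_range_succ, Finset.sum_range_succ, hgp]
        push_cast at ih ⊢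
        linarith
    have hp : Function.Periodic (fun x : ℕ => (∑ n ∈ Finset.range x, g n) - C a L * x) T := hS
    have hb : ∃ B : ℝ, ∀ x : ℕ, |(∑ n ∈ Finset.range x, g n) - C a L * x| ≤ B := by
      refine ⟨∑ t ∈ Finset.range T, |(∑ n ∈ Finset.range t, g n) - C a L * t|, fun x => ?_⟩
      have h1 : (∑ n ∈ Finset.range (x % T), g n) - C a L * ((x % T : ℕ) : ℝ) =
          (∑ n ∈ Finset.range x, g n) - C a L * x := hp.map_mod_nat x
      rw [← h1]
      exact Finset.single_le_sum (f := fun t : ℕ => |(∑ n ∈ Finset.range t, g n) - C a L * t|)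
        (fun i _ => abs_nonneg _) (Finset.mem_range.2 (Nat.mod_lt x hT))
    obtain ⟨B, hB⟩ := hb
    have h2 : Tendsto (fun x : ℕ => ((∑ n ∈ Finset.range x, g n) - C a L * x) / x) atTop (𝓝 0) := by
      refine squeeze_zero_norm (a := fun x : ℕ => B / x) (fun x => ?_)
        ((tendsto_natCast_atTop_atTop (R := ℝ)).const_div_atTop B)
      rw [Real.norm_eq_abs, abs_div, Nat.abs_cast]
      exact div_le_div_of_nonneg_right (hB x) (Nat.cast_nonneg x)
    have h3 := h2.add_const (C a L)
    rw [zero_add] at h3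
    refine h3.congr' ?_
    filter_upwards [eventually_gt_atTop 0] with x hx
    have hx' : (0 : ℝ) < x := by exact_mod_cast hx
    rw [e1]
    field_simp
    ring
  have hposC : ∀ a L : ℕ, 0 < C a L ↔ ∃ n, Free Q (N (a + L * n)) := by
    intro a L
    constructor
    · intro h
      by_contra hne
      push Not at hne
      have : (Finset.range T).filter (fun t => Free Q (N (a + L * t))) = ∅ :=
        Finset.filter_eq_empty_iff.2 fun t _ => hne t
      rw [hC] at h
      simp only [this, Finset.card_empty, Nat.cast_zero, zero_div, lt_irrefl] at h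
    · rintro ⟨n, hn⟩
      have hp : Function.Periodic (fun n => Free Q (N (a + L * n))) T := fun n => propext (hperL a L n)
      have h2 : Free Q (N (a + L * (n % T))) = Free Q (N (a + L * n)) := hp.map_mod_nat n
      have h3 : 0 < ((Finset.range T).filter (fun t => Free Q (N (a + L * t)))).card :=
        Finset.card_pos.2 ⟨n % T, Finset.mem_filter.2 ⟨Finset.mem_range.2 (Nat.mod_lt _ hT), by rw [h2]; exact hn⟩⟩
      have h4 : (0 : ℝ) < (((Finset.range T).filter (fun t => Free Q (N (a + L * t)))).card : ℝ) := by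
        exact_mod_cast h3
      exact div_pos h4 hT'
  -- the law
  have hlaw : ∀ᵐ ω ∂μ, ∀ a L : ℕ, 0 < L →
        Tendsto (fun x : ℕ => ({n : ℕ | n < x ∧ ω ∈ S (N (a + L * n))}.ncard : ℝ) / Real.log x) atTop
          (𝓝 (C a L * (∏ p ∈ Q, (1 - 1 / (p : ℝ))⁻¹) / (2 * L * Real.log (3 + √8)))) := by
    rw [ae_all_iff]
    intro a
    rw [ae_all_iff]
    intro L
    by_cases hL : 0 < L
    swap
    · exact Eventually.of_forall fun ω h => absurd h hL
    have hL' : (0 : ℝ) < L := by exact_mod_cast hL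
    have h1 := Pool.Agent.U958.PF.expo_law (μ := μ) hM.adapted Q hQ hcop hM.density (fun n => N (a + L * n))
      (by
        rw [hNN]
        intro m n hmn
        exact Pool.Agent.U958.PF.N_mono (by nlinarith)) (2 * Real.log (3 + √8) * L) (by positivity)
      (by
        rw [hNN]
        exact Pool.Agent.U958.PF.N_log_class a L hL) T hT (hperL a L)
    filter_upwards [h1] with ω hω _
    have e : C a L * (∏ p ∈ Q, (1 - 1 / (p : ℝ))⁻¹) / (2 * L * Real.log (3 + √8)) =
        Pool.Agent.U958.PF.WQ Q / (2 * Real.log (3 + √8) * L) *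
          ((((Finset.range T).filter (fun t => Pool.Agent.U958.PF.Free Q (N (a + L * t)))).card : ℝ) / T) := by
      rw [hC]
      unfold Pool.Agent.U958.PF.WQ
      have e2 : (Finset.range T).filter (fun t => Pool.Agent.U958.PF.Free Q (N (a + L * t))) =
          (Finset.range T).filter (fun t => Free Q (N (a + L * t))) := rfl
      rw [e2]
      field_simp
    rw [e]
    exact hω
  refine ⟨⟨C, fun a L _ => ⟨hdens a L, hposC a L⟩, hlaw⟩, ?_⟩
  intro δ hδ
  have hδC : δ = C 0 1 := by
    refine tendsto_nhds_unique hδ ?_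
    have h := hdens 0 1
    simpa only [zero_add, one_mul] using h
  have hlaw2 : ∀ᵐ ω ∂μ, Tendsto (fun X : ℕ => ({p : ℕ | p ≤ X ∧ ω ∈ S p ∧ Adm p}.ncard : ℝ) /
        Real.log (Real.log X)) atTop
          (𝓝 (δ * (∏ p ∈ Q, (1 - 1 / (p : ℝ))⁻¹) / (2 * Real.log (3 + √8)))) := by
    filter_upwards [hlaw] with ω hω
    have h1 := hω 0 1 one_pos
    rw [← hδC] at h1
    simp only [zero_add, one_mul, Nat.cast_one, mul_one] at h1
    have h2 := (h1.comp Pool.Agent.U958.PF.MX_top).mul Pool.Agent.U958.PF.MX_log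
    rw [mul_one] at h2
    refine h2.congr' ?_
    have h3 : Tendsto (fun X : ℕ => Real.log (Pool.Agent.U958.PF.MX X : ℝ)) atTop atTop :=
      Pool.Agent.U958.PF.logN.comp Pool.Agent.U958.PF.MX_top
    filter_upwards [h3.eventually_gt_atTop 0] with X hX
    simp only [Function.comp]
    rw [div_mul_div_cancel₀ hX.ne']
    have h4 := Pool.Agent.U958.PF.card_le {k | ω ∈ S k} X
    have h5 : {p : ℕ | p ≤ X ∧ ω ∈ S p ∧ Adm p} =
        {p : ℕ | p ≤ X ∧ p ∈ {k | ω ∈ S k} ∧ ∃ m, Pool.Agent.R803.PV.N m = p} := by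
      ext p
      exact and_congr_right fun _ => and_congr_right fun _ => Pool.Agent.U958.PF.adm_iff p
    rw [h5, h4, hNN]
    rfl
  refine ⟨hlaw2, fun h => ?_⟩
  have hpos : 0 < δ := by
    rw [hδC, hposC]
    have hkey : ∀ m : ℕ, (N m).Prime → N m ∉ Q → ∃ n, Free Q (N (0 + 1 * n)) := by
      intro m hm hmQ
      refine ⟨m, fun p hp hd => ?_⟩
      rw [zero_add, one_mul] at hd
      have := (Nat.prime_dvd_prime_iff_eq (hQ p hp) hm).1 hd
      exact hmQ (this ▸ hp)
    rcases h with h | h | h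
    · exact hkey 1 (by rw [hNN, Pool.Agent.U958.PF.N_one]; norm_num) (by
        rw [hNN, Pool.Agent.U958.PF.N_one]; exact h)
    · exact hkey 7 (by rw [hNN, Pool.Agent.U958.PF.N_seven]; exact Pool.Agent.U958.PF.prime7) (by
        rw [hNN, Pool.Agent.U958.PF.N_seven]; exact h)
    · exact hkey 13 (by rw [hNN, Pool.Agent.U958.PF.N_thirteen]; exact Pool.Agent.U958.PF.prime13) (by
        rw [hNN, Pool.Agent.U958.PF.N_thirteen]; exact h)
  refine ⟨hpos, ?_⟩
  filter_upwards [hlaw2] with ω hω hfin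
  have hfin' : {p : ℕ | ω ∈ S p ∧ Adm p}.Finite := hfin
  have hll : Tendsto (fun X : ℕ => Real.log (Real.log X)) atTop atTop :=
    Real.tendsto_log_atTop.comp Pool.Agent.U958.PF.logN
  have h0 : Tendsto (fun X : ℕ => ({p : ℕ | p ≤ X ∧ ω ∈ S p ∧ Adm p}.ncard : ℝ) /
        Real.log (Real.log X)) atTop (𝓝 0) := by
    refine squeeze_zero' ?_ ?_ (hll.const_div_atTop ({p : ℕ | ω ∈ S p ∧ Adm p}.ncard : ℝ))
    · filter_upwards [hll.eventually_gt_atTop 0] with X hX
      positivity
    · filter_upwards [hll.eventually_gt_atTop 0] with X hX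
      apply div_le_div_of_nonneg_right _ hX.le
      have hsub : {p : ℕ | p ≤ X ∧ ω ∈ S p ∧ Adm p} ⊆ {p : ℕ | ω ∈ S p ∧ Adm p} := fun p hp => hp.2
      exact_mod_cast Set.ncard_le_ncard hsub hfin'
  have := tendsto_nhds_unique hω h0
  have hpp : 0 < δ * (∏ p ∈ Q, (1 - 1 / (p : ℝ))⁻¹) / (2 * Real.log (3 + √8)) := by
    have : 0 < ∏ p ∈ Q, (1 - 1 / (p : ℝ))⁻¹ := hW
    positivity
  linarith

end Pool.Agent.Results.MP_f53aaa_nt.SequentialModels
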